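import Pool.Agent.KS6_3.RW.Helper156.RWF.J13970

/-!
Semisimplicity of the Lie algebra of the image of a sum of irreducible representations.
-/

namespace Pool.Agent.KS6_3.RX

open Pool.Agent.Helper156.RWF Pool.Agent.Helper156.RWF.J13970

/-- the range of a continuous endomorphism -/
noncomputable def rg {p N : ℕ} [Fact p.Prime] (e : EN p N) : Submodule ℚ_[p] (Fin N → ℚ_[p]) :=
  LinearMap.range (e : (Fin N → ℚ_[p]) →ₗ[ℚ_[p]] (Fin N → ℚ_[p]))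

theorem rg_stable {p N : ℕ} [Fact p.Prime] {e x : EN p N} (h : e * x = x * e) :
    ∀ w ∈ rg e, x w ∈ rg e := by
  rintro _ ⟨v, rfl⟩
  refine ⟨x v, ?_⟩
  exact congrArg (fun S : EN p N => S v) h

/-- semisimplicity for sums of irreducible representations -/
theorem ss_of_gen {p : ℕ} [Fact p.Prime] {F : Type} [Group F] (N : ℕ) (ρ : F →* EN p N)
    (g : Submodule ℚ_[p] (EN p N)) (a b : EN p N) (hab : a * b = 1) (hba : b * a = 1)
    (hag : ∀ x ∈ g, a * x * b ∈ g) (hbg : ∀ x ∈ g, b * x * a ∈ g)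
    (hρg : ∀ f, ∀ x ∈ g, ρ f * x * ρ f⁻¹ ∈ g)
    (ℒ : Set (EN p N)) (hℒg : ∀ l ∈ ℒ, ∀ x ∈ g, l * x = x * l)
    (ℰ : Set (EN p N)) (hℰℒ : ∀ e ∈ ℰ, ∀ l ∈ ℒ, e * l = l * e)
    (hℰρ : ∀ e ∈ ℰ, ∀ f, e * ρ f = ρ f * e) (hℰa : ∀ e ∈ ℰ, e * a = a * e)
    (hℰg : ∀ e ∈ ℰ, ∀ x ∈ g, e * x = x * e)
    (hirr : ∀ e ∈ ℰ, ∀ W : Submodule ℚ_[p] (Fin N → ℚ_[p]), W ≤ rg e →
      (∀ l ∈ ℒ, ∀ w ∈ W, l w ∈ W) →
      (∀ f, ∀ w ∈ W, ρ f w ∈ W) → (∀ w ∈ W, a w ∈ W) → W = ⊥ ∨ W = rg e)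
    (hgen : ∀ W : Submodule ℚ_[p] (Fin N → ℚ_[p]), (∀ e ∈ ℰ, rg e ≤ W) → W = ⊤) :
    ∀ W : Submodule ℚ_[p] (Fin N → ℚ_[p]), (∀ x ∈ g, ∀ w ∈ W, x w ∈ W) →
      ∃ W' : Submodule ℚ_[p] (Fin N → ℚ_[p]), (∀ x ∈ g, ∀ w ∈ W', x w ∈ W') ∧ IsCompl W W' := by
  have hρ1 : ∀ f, ρ f * ρ f⁻¹ = 1 := fun f => by rw [← map_mul, mul_inv_cancel, map_one]
  have hρ2 : ∀ f, ρ f⁻¹ * ρ f = 1 := fun f => by rw [← map_mul, inv_mul_cancel, map_one]
  have hSℒ : ∀ l ∈ ℒ, ∀ w ∈ sSup {U | ssMin g U}, l w ∈ sSup {U | ssMin g U} :=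
    (fun l hl => ss_socle_stable l (fun x hx => ⟨x, hx, (hℒg l hl x hx).symm⟩)
      (fun x hx => ⟨x, hx, hℒg l hl x hx⟩))
  have hSρ : ∀ f, ∀ w ∈ sSup {U | ssMin g U}, ρ f w ∈ sSup {U | ssMin g U} :=
    (fun f => ss_socle_stable (ρ f)
      (fun x hx => ⟨ρ f⁻¹ * x * ρ f, by
        have := hρg f⁻¹ x hx
        rwa [inv_inv] at this, by
        rw [← mul_assoc, ← mul_assoc, hρ1, one_mul]⟩)
      (fun x hx => ⟨ρ f * x * ρ f⁻¹, hρg f x hx, by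
        rw [mul_assoc, hρ2, mul_one]⟩))
  have hSa : ∀ w ∈ sSup {U | ssMin g U}, a w ∈ sSup {U | ssMin g U} :=
    (ss_socle_stable a
      (fun x hx => ⟨b * x * a, hbg x hx, by rw [← mul_assoc, ← mul_assoc, hab, one_mul]⟩)
      (fun x hx => ⟨a * x * b, hag x hx, by rw [mul_assoc, hba, mul_one]⟩))
  have htop : sSup {U | ssMin g U} = ⊤ := by
    apply hgen
    intro e he
    have h := hirr e he (sSup {U | ssMin g U} ⊓ rg e) inf_le_right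
      (fun l hl w hw => ⟨hSℒ l hl w hw.1, rg_stable (hℰℒ e he l hl) w hw.2⟩)
      (fun f w hw => ⟨hSρ f w hw.1, rg_stable (hℰρ e he f) w hw.2⟩)
      (fun w hw => ⟨hSa w hw.1, rg_stable (hℰa e he) w hw.2⟩)
    rcases h with h | h
    · by_cases hne' : rg e = ⊥
      · rw [hne']
        exact bot_le
      exfalso
      obtain ⟨U, ⟨hU1, hU2, hU4⟩, hU3⟩ := wellFounded_lt.has_min
        {U : Submodule ℚ_[p] (Fin N → ℚ_[p]) | ssSt g U ∧ U ≠ ⊥ ∧ U ≤ rg e}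
        ⟨rg e, fun x hx w hw => rg_stable (hℰg e he x hx) w hw, hne', le_rfl⟩
      have hmin : ssMin g U := by
        refine ⟨hU1, hU2, fun U' hU' hle => ?_⟩
        by_contra hcon
        push Not at hcon
        exact hU3 U' ⟨hU', hcon.1, hle.trans hU4⟩ (lt_of_le_of_ne hle hcon.2)
      have hle : U ≤ ⊥ := by
        rw [← h]
        exact le_inf (le_sSup hmin) hU4
      exact hU2 (eq_bot_iff.2 hle)
    · exact inf_eq_right.1 h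
  intro W hW
  obtain ⟨W', ⟨hW'1, hW'2⟩, hW'3⟩ := wellFounded_gt.has_min
    {W' : Submodule ℚ_[p] (Fin N → ℚ_[p]) | ssSt g W' ∧ Disjoint W W'}
    ⟨⊥, fun x _ w hw => by
      rw [Submodule.mem_bot] at hw
      rw [hw, map_zero]
      exact Submodule.zero_mem _, disjoint_bot_right⟩
  refine ⟨W', hW'1, hW'2, ?_⟩
  rw [codisjoint_iff, eq_top_iff, ← htop]
  apply sSup_le
  intro U hU
  by_contra hnot
  have hst : ssSt g (U ⊓ (W ⊔ W')) := ssSt_inf hU.1 (ssSt_sup hW hW'1)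
  rcases hU.2.2 _ hst inf_le_left with h | h
  · have hd : Disjoint (W ⊔ W') U := by
      rw [disjoint_iff, inf_comm]
      exact h
    have hd' : Disjoint W (W' ⊔ U) := hW'2.disjoint_sup_right_of_disjoint_sup_left hd
    refine hW'3 (W' ⊔ U) ⟨ssSt_sup hW'1 hU.1, hd'⟩ ?_
    refine lt_of_le_of_ne le_sup_left fun he => hnot ?_
    have : U ≤ W' := by
      rw [he]
      exact le_sup_right
    exact this.trans le_sup_right
  · exact hnot (inf_eq_left.1 h)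

end Pool.Agent.KS6_3.RX
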