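import Pool.Agent.KS6_3.RW.Helper156.RWF.D0
import Pool.Agent.KS6_3.RW.Helper156.RWF.J12830
import Pool.Agent.KS6_3.RW.Helper156.RWF.J12831
import Pool.Agent.KS6_3.RW.Helper156.RWF.J13972
import Pool.Agent.KS6_3.RW.Helper156.RWF.J13974
import Pool.Agent.KS6_3.RW.Helper156.RWF.J14173
import Pool.Agent.KS6_3.RX.Ss
import Pool.Agent.KS6_3.RX.Abs

/-!
The deterministic theorem for sums of irreducible representations (adapted from the library
module J14175).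
-/

namespace Pool.Agent.KS6_3.RX

open Pool.Agent.Helper156.RWF Pool.Agent.Helper156.RWF.J12830 Pool.Agent.Helper156.RWF.J12831 Pool.Agent.Helper156.RWF.J13972 Pool.Agent.Helper156.RWF.J13974 Pool.Agent.Helper156.RWF.J14173
open Filter Topology MeasureTheory

variable {p : ℕ} [Fact p.Prime]
variable {F : Type} [Group F] [TopologicalSpace F] [IsTopologicalGroup F] [CompactSpace F]
  [T2Space F] [TotallyDisconnectedSpace F]

/-- the main deterministic theorem -/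
theorem core2 {d : ℕ} {x : Fin d → F}
    (hx : Dense ((Subgroup.closure (Set.range x) : Subgroup F) : Set F))
    (φ : F ≃ₜ* F) (hφ : ¬ Bad p φ) (N : ℕ) (hN : 1 ≤ N) (ρ : F →* EN p N) (hρ : Continuous ρ)
    (hρn : ∀ f, ‖ρ f‖ ≤ 1) (a b : EN p N) (hab : a * b = 1) (hba : b * a = 1)
    (hφa : ∀ f, ρ (φ f) = a * ρ f * b) (ℒ : Set (EN p N))
    (hℒρ : ∀ l ∈ ℒ, ∀ f, l * ρ f = ρ f * l)
    (ℰ : Set (EN p N)) (hℰℒ : ∀ e ∈ ℰ, ∀ l ∈ ℒ, e * l = l * e)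
    (hℰρ : ∀ e ∈ ℰ, ∀ f, e * ρ f = ρ f * e) (hℰa : ∀ e ∈ ℰ, e * a = a * e)
    (hirr : ∀ e ∈ ℰ, ∀ W : Submodule ℚ_[p] (Fin N → ℚ_[p]), W ≤ rg e →
      (∀ l ∈ ℒ, ∀ w ∈ W, l w ∈ W) →
      (∀ f, ∀ w ∈ W, ρ f w ∈ W) → (∀ w ∈ W, a w ∈ W) → W = ⊥ ∨ W = rg e)
    (hgen : ∀ W : Submodule ℚ_[p] (Fin N → ℚ_[p]), (∀ e ∈ ℰ, rg e ≤ W) → W = ⊤)
    (S : Submodule ℚ_[p] (EN p N)) (hSρ : ∀ f, ∀ y ∈ S, ρ f * y * ρ f⁻¹ ∈ S)
    (hdetT : ∀ M₁ : Submodule ℚ_[p] (EN p N), M₁ ≤ S →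
      ∀ (m : ℕ) (f₀ : F), (∀ f, (ρ f₀⁻¹ * a ^ m) * ρ f = ρ f * (ρ f₀⁻¹ * a ^ m)) →
      (ρ f₀⁻¹ * a ^ m) * a = a * (ρ f₀⁻¹ * a ^ m) →
      ∀ T : M₁ →ₗ[ℚ_[p]] M₁, (∀ y : M₁, ((T y : M₁) : EN p N) =
        (ρ f₀⁻¹ * a ^ m) * y * (b ^ m * ρ f₀)) →
      RootDet M₁ T)
    (c : F → EN p N) (hc : Continuous c) (hcS : ∀ f, c f ∈ S)
    (hcoc : ∀ f h, c (f * h) = c f + ρ f * c h * ρ f⁻¹) (β : EN p N)
    (hβ : ∀ f, a * c (φ.symm f) * b - c f = ρ f * β * ρ f⁻¹ - β) :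
    ∃ e ∈ S, ∀ f, c f = ρ f * e * ρ f⁻¹ - e := by
  classical
  have : Nonempty (Fin N) := ⟨⟨0, hN⟩⟩
  have : IsUltrametricDist (EN p N) := clm_ultrametric _
  obtain ⟨g, k, hL, hbr⟩ := exists_lie' (p := p) (A := EN p N) (Set.range ρ) ⟨1, map_one ρ⟩
    (by
      rintro _ ⟨f, rfl⟩ _ ⟨h, rfl⟩
      exact ⟨f * h, map_mul ρ f h⟩)
    (by
      rintro _ ⟨f, rfl⟩
      refine ⟨ρ f⁻¹, ⟨f⁻¹, rfl⟩, ?_, ?_⟩
      · rw [← map_mul, mul_inv_cancel, map_one]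
      · rw [← map_mul, inv_mul_cancel, map_one])
    (isCompact_range hρ)
  obtain ⟨hag, hbg, hρg, hℒg⟩ := conj_lie φ ρ hρn g k hL a b hab hba hφa
  have hss := ss_of_gen N ρ g a b hab hba hag hbg hρg ℒ
    (fun l hl x hx => hℒg l (hℒρ l hl) x hx) ℰ hℰℒ hℰρ hℰa
    (fun e he x hx => hℒg e (hℰρ e he) x hx) hirr hgen
  have hz := center_zero_of_typ hx φ hφ N hN ρ hρ hρn g k hL hbr a b hab hba hφa hss
  have hW : WProp g := wprop_EN N g hbr hss hz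
  have smul_mulN : ∀ (t : ℚ_[p]) (u l : EN p N), (t • u) * l = t • (u * l) := by
    intro t u l
    apply ContinuousLinearMap.ext
    intro v
    rfl
  have mul_smulN : ∀ (t : ℚ_[p]) (u l : EN p N), u * (t • l) = t • (u * l) := by
    intro t u l
    apply ContinuousLinearMap.ext
    intro v
    change u (t • l v) = t • u (l v)
    exact map_smul u t (l v)
  have hinv : ∀ f, ρ f = 1 → ρ f⁻¹ = 1 := by
    intro f hf
    have h1 : ρ f * ρ f⁻¹ = 1 := by rw [← map_mul, mul_inv_cancel, map_one]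
    rw [hf, one_mul] at h1
    exact h1
  have hρρ : ∀ f, ρ f * ρ f⁻¹ = 1 := fun f => by rw [← map_mul, mul_inv_cancel, map_one]
  have hρinvc : Continuous (fun f => ρ f⁻¹) := hρ.comp continuous_inv
  have hc1 : c 1 = 0 := by
    have h1 := hcoc 1 1
    rw [mul_one, map_one, one_mul, inv_one, map_one, mul_one] at h1
    have h2 : c 1 + 0 = c 1 + c 1 := by rw [add_zero]; exact h1
    exact (add_left_cancel h2).symm
  have hcinv : ∀ f, c f + ρ f * c f⁻¹ * ρ f⁻¹ = 0 := by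
    intro f
    rw [← hcoc, mul_inv_cancel, hc1]
  have hcconj : ∀ f h, ρ h = 1 → c (f * h * f⁻¹) = ρ f * c h * ρ f⁻¹ := by
    intro f h hh
    rw [hcoc, hcoc, mul_inv_rev, map_mul, map_mul, hh, hinv h hh, mul_one, one_mul]
    have h1 := hcinv f
    have h2 : c f + ρ f * c h * ρ f⁻¹ + ρ f * c f⁻¹ * ρ f⁻¹
        = (c f + ρ f * c f⁻¹ * ρ f⁻¹) + ρ f * c h * ρ f⁻¹ := by abel
    rw [h2, h1, zero_add]
  set M₁ : Submodule ℚ_[p] (EN p N) := Submodule.span ℚ_[p] (c '' {f | ρ f = 1}) with hM₁def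
  have hM₁S : M₁ ≤ S := by
    rw [hM₁def, Submodule.span_le]
    rintro _ ⟨f, _, rfl⟩
    exact hcS f
  have hM₁ρ : ∀ f, ∀ y ∈ M₁, ρ f * y * ρ f⁻¹ ∈ M₁ := by
    intro f y hy
    refine Submodule.span_induction (p := fun y _ => ρ f * y * ρ f⁻¹ ∈ M₁) ?_ ?_ ?_ ?_ hy
    · rintro _ ⟨h, hh, rfl⟩
      rw [← hcconj f h hh]
      apply Submodule.subset_span
      refine ⟨f * h * f⁻¹, ?_, rfl⟩
      change ρ (f * h * f⁻¹) = 1
      rw [map_mul, map_mul, show ρ h = 1 from hh, mul_one, hρρ]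
    · rw [mul_zero, zero_mul]; exact M₁.zero_mem
    · intro u v _ _ hu hv
      rw [mul_add, add_mul]; exact M₁.add_mem hu hv
    · intro t u _ hu
      rw [mul_smulN, smul_mulN]; exact M₁.smul_mem t hu
  have hM₁a : ∀ y ∈ M₁, a * y * b ∈ M₁ := by
    intro y hy
    refine Submodule.span_induction (p := fun y _ => a * y * b ∈ M₁) ?_ ?_ ?_ ?_ hy
    · rintro _ ⟨h, hh, rfl⟩
      have h1 := hβ (φ h)
      have h2 : φ.symm (φ h) = h := φ.symm_apply_apply h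
      have h3 : ρ (φ h) = 1 := by
        rw [hφa, show ρ h = 1 from hh, mul_one, hab]
      rw [h2, h3, hinv _ h3, one_mul, mul_one, sub_self, sub_eq_zero] at h1
      rw [h1]
      exact Submodule.subset_span ⟨φ h, h3, rfl⟩
    · rw [mul_zero, zero_mul]; exact M₁.zero_mem
    · intro u v _ _ hu hv
      rw [mul_add, add_mul]; exact M₁.add_mem hu hv
    · intro t u _ hu
      rw [mul_smulN, smul_mulN]; exact M₁.smul_mem t hu
  obtain ⟨e₁, he₁S, he₁⟩ := H1_vanish ρ hρ g k hL hW S M₁ hM₁S hSρ hM₁ρ c hc hcS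
    (by
      intro f h
      rw [hcoc f h]
      have : c f + ρ f * c h * ρ f⁻¹ - c f - ρ f * c h * ρ f⁻¹ = 0 := by abel
      rw [this]
      exact M₁.zero_mem)
    (by
      intro f hf
      exact Submodule.subset_span ⟨f, hf, rfl⟩)
  by_cases hM : M₁ = ⊥
  · refine ⟨e₁, he₁S, fun f => ?_⟩
    have h1 := he₁ f
    rw [hM, Submodule.mem_bot, sub_eq_zero] at h1
    exact h1
  · exfalso
    let c₁ : F → EN p N := fun f => c f - (ρ f * e₁ * ρ f⁻¹ - e₁)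
    have hc₁c : Continuous c₁ :=
      hc.sub (((hρ.mul continuous_const).mul hρinvc).sub continuous_const)
    have hc₁M : ∀ f, c₁ f ∈ M₁ := he₁
    have hconj : ∀ (e : EN p N) f h, ρ (f * h) * e * ρ (f * h)⁻¹ =
        ρ f * (ρ h * e * ρ h⁻¹) * ρ f⁻¹ := by
      intro e f h
      rw [mul_inv_rev, map_mul, map_mul]
      simp only [mul_assoc]
    have hc₁coc : ∀ f h, c₁ (f * h) = c₁ f + ρ f * c₁ h * ρ f⁻¹ := by
      intro f h
      change c (f * h) - (ρ (f * h) * e₁ * ρ (f * h)⁻¹ - e₁) =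
        c f - (ρ f * e₁ * ρ f⁻¹ - e₁) + ρ f * (c h - (ρ h * e₁ * ρ h⁻¹ - e₁)) * ρ f⁻¹
      rw [hconj, hcoc]
      simp only [mul_sub, sub_mul]
      abel
    have hc₁ker : ∀ f, ρ f = 1 → c₁ f = c f := by
      intro f hf
      change c f - (ρ f * e₁ * ρ f⁻¹ - e₁) = c f
      rw [hf, hinv f hf, one_mul, mul_one, sub_self, sub_zero]
    have hspan : Submodule.span ℚ_[p] (c₁ '' {f | ρ f = 1}) = M₁ := by
      rw [hM₁def]
      congr 1
      exact Set.image_congr fun f hf => hc₁ker f hf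
    set β₁ : EN p N := β - (a * e₁ * b - e₁) with hβ₁def
    have hβ₁ : ∀ f, a * c₁ (φ.symm f) * b - c₁ f = ρ f * β₁ * ρ f⁻¹ - β₁ := by
      intro f
      have hs : ∀ f, a * ρ (φ.symm f) = ρ f * a := by
        intro f
        have h1 := hφa (φ.symm f)
        have h2 : φ (φ.symm f) = f := φ.apply_symm_apply f
        rw [h2] at h1
        rw [h1]
        calc a * ρ (φ.symm f) = a * ρ (φ.symm f) * 1 := by rw [mul_one]
          _ = a * ρ (φ.symm f) * (b * a) := by rw [hba]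
          _ = a * ρ (φ.symm f) * b * a := by simp only [mul_assoc]
      have hs' : ρ (φ.symm f)⁻¹ * b = b * ρ f⁻¹ := by
        have h1 := hφa (φ.symm f)⁻¹
        have h2 : φ (φ.symm f)⁻¹ = f⁻¹ := by
          rw [map_inv]
          congr 1
          exact φ.apply_symm_apply f
        rw [h2] at h1
        rw [h1]
        calc ρ (φ.symm f)⁻¹ * b = 1 * (ρ (φ.symm f)⁻¹ * b) := by rw [one_mul]
          _ = b * a * (ρ (φ.symm f)⁻¹ * b) := by rw [hba]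
          _ = b * (a * ρ (φ.symm f)⁻¹ * b) := by simp only [mul_assoc]
      have hkey : a * (ρ (φ.symm f) * e₁ * ρ (φ.symm f)⁻¹) * b = ρ f * (a * e₁ * b) * ρ f⁻¹ := by
        calc a * (ρ (φ.symm f) * e₁ * ρ (φ.symm f)⁻¹) * b
            = (a * ρ (φ.symm f)) * e₁ * (ρ (φ.symm f)⁻¹ * b) := by simp only [mul_assoc]
          _ = (ρ f * a) * e₁ * (b * ρ f⁻¹) := by rw [hs, hs']
          _ = ρ f * (a * e₁ * b) * ρ f⁻¹ := by simp only [mul_assoc]
      change a * (c (φ.symm f) - (ρ (φ.symm f) * e₁ * ρ (φ.symm f)⁻¹ - e₁)) * b -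
        (c f - (ρ f * e₁ * ρ f⁻¹ - e₁)) = ρ f * (β - (a * e₁ * b - e₁)) * ρ f⁻¹ -
          (β - (a * e₁ * b - e₁))
      have h5 := hβ f
      have h6 : a * (c (φ.symm f) - (ρ (φ.symm f) * e₁ * ρ (φ.symm f)⁻¹ - e₁)) * b =
          a * c (φ.symm f) * b - (a * (ρ (φ.symm f) * e₁ * ρ (φ.symm f)⁻¹) * b - a * e₁ * b) := by
        simp only [mul_sub, sub_mul]
      rw [h6, hkey]
      have h7 : ρ f * (β - (a * e₁ * b - e₁)) * ρ f⁻¹ =
          ρ f * β * ρ f⁻¹ - (ρ f * (a * e₁ * b) * ρ f⁻¹ - ρ f * e₁ * ρ f⁻¹) := by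
        simp only [mul_sub, sub_mul]
      rw [h7]
      have h8 : a * c (φ.symm f) * b = ρ f * β * ρ f⁻¹ - β + c f := by
        rw [← h5]; abel
      rw [h8]
      abel
    obtain ⟨β₂, hβ₂M, hβ₂⟩ := H1_vanish ρ hρ g k hL hW M₁ ⊥ bot_le hM₁ρ
      (by
        intro f y hy
        rw [Submodule.mem_bot] at hy ⊢
        rw [hy, mul_zero, zero_mul])
      (fun f => ρ f * β₁ * ρ f⁻¹ - β₁)
      (((hρ.mul continuous_const).mul hρinvc).sub continuous_const)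
      (by
        intro f
        rw [← hβ₁ f]
        exact M₁.sub_mem (hM₁a _ (hc₁M _)) (hc₁M _))
      (by
        intro f h
        rw [Submodule.mem_bot, hconj]
        simp only [mul_sub, sub_mul]
        abel)
      (by
        intro f hf
        rw [Submodule.mem_bot, hf, hinv f hf, one_mul, mul_one, sub_self])
    refine core_abs2 hx φ hφ ρ hρ hρn a b hab hba hφa g k hL hbr hW M₁ (hdetT M₁ hM₁S) hM
      hM₁ρ hM₁a c₁ hc₁c hc₁M hspan hc₁coc β₂ hβ₂M ?_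
    intro f
    have h1 := hβ₂ f
    rw [Submodule.mem_bot, sub_eq_zero] at h1
    rw [hβ₁ f]
    exact h1

end Pool.Agent.KS6_3.RX
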