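import Pool.Agent.KS6_3.RW.Helper156.RWF.Stmt

/-!
Definitions for the purity theorem for random Weil groups.
-/

namespace Pool.Agent.KS6_3.RX

open Pool.Agent.Helper156.RWF

variable {F L : Type} [Group F] [TopologicalSpace F] [Field L] {φ : F ≃ₜ* F} {n m : ℕ}

/-- Two representations of the Weil group of dimensions `n` and `m` have the same weight: the
normalised determinants `det ρ(φ)^(1/n)` and `det σ(φ)^(1/m)` of the generator agree up to roots
of unity. -/
def SameWeight (ρ : WeilGroup φ →* GL (Fin n) L) (σ : WeilGroup φ →* GL (Fin m) L) : Prop :=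
  ∃ t : ℕ, 1 ≤ t ∧ (ρ (frob φ) : Matrix (Fin n) (Fin n) L).det ^ (m * t) =
    (σ (frob φ) : Matrix (Fin m) (Fin m) L).det ^ (n * t)

/-- cocycles of `F` with values in `Hom(σ, ρ) = ρ ⊗ σ^∨` -/
def IsCocycleHom (ρ : WeilGroup φ →* GL (Fin n) L) (σ : WeilGroup φ →* GL (Fin m) L)
    (c : F → Matrix (Fin n) (Fin m) L) : Prop :=
  ∀ x y : F, c (x * y) = c x + (ρ (inF φ x) : Matrix (Fin n) (Fin n) L) * c y *
    (((σ (inF φ x))⁻¹ : GL (Fin m) L) : Matrix (Fin m) (Fin m) L)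

/-- coboundaries -/
def IsCobdryHom (ρ : WeilGroup φ →* GL (Fin n) L) (σ : WeilGroup φ →* GL (Fin m) L)
    (c : F → Matrix (Fin n) (Fin m) L) : Prop :=
  ∃ e : Matrix (Fin n) (Fin m) L, ∀ x : F, c x = (ρ (inF φ x) : Matrix (Fin n) (Fin n) L) * e *
    (((σ (inF φ x))⁻¹ : GL (Fin m) L) : Matrix (Fin m) (Fin m) L) - e

/-- the action of `φ` on cochains -/
def frobActHom (ρ : WeilGroup φ →* GL (Fin n) L) (σ : WeilGroup φ →* GL (Fin m) L)
    (c : F → Matrix (Fin n) (Fin m) L) : F → Matrix (Fin n) (Fin m) L := fun x =>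
  (ρ (frob φ) : Matrix (Fin n) (Fin n) L) * c (φ.symm x) *
    (((σ (frob φ))⁻¹ : GL (Fin m) L) : Matrix (Fin m) (Fin m) L)

/-- `ρ` and `σ` are continuous irreducible representations of the same weight -/
structure IsPair [TopologicalSpace L] (ρ : WeilGroup φ →* GL (Fin n) L)
    (σ : WeilGroup φ →* GL (Fin m) L) : Prop where
  cont_left : Continuous ρ
  irred_left : IsIrredRep ρ
  cont_right : Continuous σ
  irred_right : IsIrredRep σ
  weight : SameWeight ρ σ

/-- `H¹(F; ρ ⊗ σ^∨)^φ = 0`: every continuous cocycle whose class is invariant under `φ` is a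
coboundary -/
def NoInvariants [TopologicalSpace L] (ρ : WeilGroup φ →* GL (Fin n) L)
    (σ : WeilGroup φ →* GL (Fin m) L) : Prop :=
  ∀ c : F → Matrix (Fin n) (Fin m) L, Continuous c → IsCocycleHom ρ σ c →
    IsCobdryHom ρ σ (fun x => frobActHom ρ σ c x - c x) → IsCobdryHom ρ σ c

/-- **Purity** for the Weil group of `φ`: if `ρ` and `σ` are continuous irreducible representations
of the same weight over a finite extension `L` of `ℚ_p`, then `H¹(F; ρ ⊗ σ^∨)^φ = 0`. -/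
def PureWeil (p : ℕ) [Fact p.Prime] {F : Type} [Group F] [TopologicalSpace F] (φ : F ≃ₜ* F) :
    Prop :=
  ∀ (L : Type) [NormedField L] [NormedAlgebra ℚ_[p] L] [FiniteDimensional ℚ_[p] L] (n m : ℕ)
    (ρ : WeilGroup φ →* GL (Fin n) L) (σ : WeilGroup φ →* GL (Fin m) L),
    IsPair ρ σ → NoInvariants ρ σ

/-- the block triangular matrix `(A u; 0 B)` -/
def tri (A : Matrix (Fin n) (Fin n) L) (u : Matrix (Fin n) (Fin m) L)
    (B : Matrix (Fin m) (Fin m) L) : Matrix (Fin n ⊕ Fin m) (Fin n ⊕ Fin m) L :=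
  Matrix.fromBlocks A u 0 B

/-- `τ` is an extension of `σ` by `ρ`, with upper right block `u` -/
def IsExt (ρ : WeilGroup φ →* GL (Fin n) L) (σ : WeilGroup φ →* GL (Fin m) L)
    (τ : WeilGroup φ →* GL (Fin n ⊕ Fin m) L) (u : WeilGroup φ → Matrix (Fin n) (Fin m) L) :
    Prop :=
  ∀ w, (τ w : Matrix (Fin n ⊕ Fin m) (Fin n ⊕ Fin m) L) = tri (ρ w : Matrix (Fin n) (Fin n) L)
    (u w) (σ w : Matrix (Fin m) (Fin m) L)

/-- the extension `τ` splits over `F`: it is conjugate over `F` to `ρ ⊕ σ` by `(1 e; 0 1)` -/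
def SplitsOverF (ρ : WeilGroup φ →* GL (Fin n) L) (σ : WeilGroup φ →* GL (Fin m) L)
    (τ : WeilGroup φ →* GL (Fin n ⊕ Fin m) L) : Prop :=
  ∃ e : Matrix (Fin n) (Fin m) L, ∀ f : F,
    tri 1 e 1 * (τ (inF φ f) : Matrix (Fin n ⊕ Fin m) (Fin n ⊕ Fin m) L) =
      tri (ρ (inF φ f) : Matrix (Fin n) (Fin n) L) 0
        (σ (inF φ f) : Matrix (Fin m) (Fin m) L) * tri 1 e 1

/-- Every continuous extension of `σ` by `ρ`, continuous irreducible representations of the Weil
group of the same weight, splits over `F`. -/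
def SplitWeil (p : ℕ) [Fact p.Prime] {F : Type} [Group F] [TopologicalSpace F] (φ : F ≃ₜ* F) :
    Prop :=
  ∀ (L : Type) [NormedField L] [NormedAlgebra ℚ_[p] L] [FiniteDimensional ℚ_[p] L] (n m : ℕ)
    (ρ : WeilGroup φ →* GL (Fin n) L) (σ : WeilGroup φ →* GL (Fin m) L), IsPair ρ σ →
    ∀ (τ : WeilGroup φ →* GL (Fin n ⊕ Fin m) L), Continuous τ →
    ∀ u : WeilGroup φ → Matrix (Fin n) (Fin m) L, IsExt ρ σ τ u → SplitsOverF ρ σ τ

end Pool.Agent.KS6_3.RX
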