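import Pool.Agent.KS6_3.RW.Helper156.RWF.J14028

/-!
Determinants of the maps `y ↦ z y z⁻¹` between two representations of the same weight.
-/

namespace Pool.Agent.KS6_3.RX

open Pool.Agent.Helper156.RWF Pool.Agent.Helper156.RWF.J14028
open Polynomial

theorem norm_det {K Ek V : Type} [Field K] [Field Ek] [Algebra K Ek] [FiniteDimensional K Ek]
    [AddCommGroup V] [Module K V] [FiniteDimensional K V] (T : V →ₗ[K] V)
    (hs : (T.charpoly.map (algebraMap K Ek)).Splits) :
    LinearMap.det T ^ Module.finrank K Ek =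
      ((T.baseChange Ek).charpoly.roots.map (Algebra.norm K)).prod := by
  have hcp : (T.baseChange Ek).charpoly = T.charpoly.map (algebraMap K Ek) :=
    LinearMap.charpoly_baseChange _ _
  have hsp : (T.baseChange Ek).charpoly.Splits := by rw [hcp]; exact hs
  have hprod := Module.End.det_eq_prod_roots_charpoly_of_splits hsp
  have hdet : LinearMap.det (T.baseChange Ek) = algebraMap K Ek (LinearMap.det T) :=
    LinearMap.det_baseChange _
  rw [← Algebra.norm_algebraMap (S := Ek), ← hdet,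
    show LinearMap.det (T.baseChange Ek) = (T.baseChange Ek).charpoly.roots.prod from hprod,
    map_multiset_prod]

theorem exists_eigvec {K Ek V : Type} [Field K] [Field Ek] [Algebra K Ek]
    [AddCommGroup V] [Module K V] [FiniteDimensional K V] (T : V →ₗ[K] V)
    (lam : Ek) (hl : lam ∈ (T.baseChange Ek).charpoly.roots) :
    ∃ v, v ≠ 0 ∧ T.baseChange Ek v = lam • v ∧
      Module.End.HasEigenvector (T.baseChange Ek) lam v := by
  have hroot : (T.baseChange Ek).charpoly.IsRoot lam :=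
    (Polynomial.mem_roots (LinearMap.charpoly_monic _).ne_zero).1 hl
  have hev := (Module.End.hasEigenvalue_iff_isRoot_charpoly (T.baseChange Ek) lam).2 hroot
  obtain ⟨v, hv⟩ := hev.exists_hasEigenvector
  exact ⟨v, hv.2, hv.apply_eq_smul, hv⟩

theorem root_of_aeval {K Ek V : Type} [Field K] [Field Ek] [Algebra K Ek]
    [AddCommGroup V] [Module K V] [FiniteDimensional K V] (T : V →ₗ[K] V)
    (P : K[X]) (hP : aeval T P = 0)
    (lam : Ek) (hl : lam ∈ (T.baseChange Ek).charpoly.roots) : aeval lam P = 0 := by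
  obtain ⟨v, hv0, -, hv⟩ := exists_eigvec T lam hl
  have h1 : aeval (T.baseChange Ek) P = 0 := by
    have h2 := Polynomial.aeval_algHom_apply (Module.End.baseChangeHom K Ek V) T P
    rw [hP, map_zero] at h2
    exact h2
  have h3 := Module.End.aeval_apply_of_hasEigenvector (p := P.map (algebraMap K Ek)) hv
  rw [Polynomial.aeval_map_algebraMap, h1, LinearMap.zero_apply, Polynomial.eval_map_algebraMap]
    at h3
  rcases smul_eq_zero.1 h3.symm with h | h
  · exact h
  · exact absurd h hv0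

/-- if all eigenvalues have the norm `ν` -/
theorem norm_det_const {K Ek V : Type} [Field K] [Field Ek] [Algebra K Ek]
    [FiniteDimensional K Ek]
    [AddCommGroup V] [Module K V] [FiniteDimensional K V] (T : V →ₗ[K] V)
    (hs : (T.charpoly.map (algebraMap K Ek)).Splits) (ν : K) (t : ℕ)
    (hν : ∀ lam ∈ (T.baseChange Ek).charpoly.roots, Algebra.norm K lam ^ t = ν) :
    (LinearMap.det T ^ Module.finrank K Ek) ^ t = ν ^ Module.finrank K V := by
  have hcp : (T.baseChange Ek).charpoly = T.charpoly.map (algebraMap K Ek) :=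
    LinearMap.charpoly_baseChange _ _
  have hsp : (T.baseChange Ek).charpoly.Splits := by rw [hcp]; exact hs
  rw [norm_det T hs, ← Multiset.prod_map_pow]
  have h1 : ((T.baseChange Ek).charpoly.roots.map (fun i => Algebra.norm K i ^ t)) =
      Multiset.replicate (Multiset.card (T.baseChange Ek).charpoly.roots) ν := by
    rw [Multiset.eq_replicate]
    refine ⟨Multiset.card_map _ _, ?_⟩
    intro b hb
    obtain ⟨lam, hl, rfl⟩ := Multiset.mem_map.1 hb
    exact hν lam hl
  rw [h1, Multiset.prod_replicate, ← hsp.natDegree_eq_card_roots, LinearMap.charpoly_natDegree,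
    Module.finrank_baseChange]

theorem norm_conj {K Ek : Type} [Field K] [Field Ek] [Algebra K Ek]
    [FiniteDimensional K Ek] [Normal K Ek] (P : K[X]) (hm : P.Monic) (hi : Irreducible P)
    (α β : Ek) (hα : aeval α P = 0) (hβ : aeval β P = 0) :
    Algebra.norm K α = Algebra.norm K β := by
  have hmin : P = minpoly K β := minpoly.eq_of_irreducible_of_monic hi hβ hm
  obtain ⟨σ, hσ⟩ := minpoly.exists_algEquiv_of_root' (x := α) (y := β)
    (Algebra.IsAlgebraic.isAlgebraic β) (by rw [← hmin]; exact hα)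
  rw [← hσ]
  exact Algebra.norm_eq_of_algEquiv σ β

theorem eig_quot2 {K Ω A : Type} [Field K] [Field Ω] [Algebra K Ω] [Ring A] [Algebra Ω A]
    [Algebra K A] [IsScalarTower K Ω A] (Z Z' w : A) (h1 : Z * Z' = 1) (h2 : Z' * Z = 1)
    (μ μ' : Polynomial K) (hμ : Polynomial.aeval Z μ * w = 0) (hμ' : w * Polynomial.aeval Z μ' = 0)
    (hs : (μ.map (algebraMap K Ω)).Splits) (hμm : μ.Monic) (hw : w ≠ 0) (lam : Ω)
    (hl : Z * w * Z' = lam • w) :
    ∃ α β : Ω, Polynomial.aeval α μ = 0 ∧ Polynomial.aeval β μ' = 0 ∧ lam * β = α := by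
  have hZw : Z * w = lam • (w * Z) := by
    calc Z * w = Z * w * (Z' * Z) := by rw [h2, mul_one]
      _ = Z * w * Z' * Z := by simp only [mul_assoc]
      _ = lam • (w * Z) := by rw [hl, smul_mul_assoc]
  have hlam : lam ≠ 0 := by
    intro h0
    rw [h0, zero_smul] at hZw
    apply hw
    calc w = Z' * Z * w := by rw [h2, one_mul]
      _ = Z' * (Z * w) := mul_assoc _ _ _
      _ = 0 := by rw [hZw, mul_zero]
  set P : Polynomial Ω := μ.map (algebraMap K Ω) with hP
  set P' : Polynomial Ω := μ'.map (algebraMap K Ω) with hP'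
  have hPm : P.Monic := hμm.map _
  have hPZ : Polynomial.aeval Z P * w = 0 := by
    rw [hP, Polynomial.aeval_map_algebraMap, hμ]
  have hPZ' : w * Polynomial.aeval Z P' = 0 := by
    rw [hP', Polynomial.aeval_map_algebraMap, hμ']
  have hev : ∀ (ν : Polynomial K) (c : Ω),
      Polynomial.eval c (ν.map (algebraMap K Ω)) = Polynomial.aeval c ν := by
    intro ν c
    rw [Polynomial.eval_map_algebraMap]
  have hPp := hs.eq_prod_roots_of_monic hPm
  have hprod : Polynomial.aeval Z (P.roots.map (fun a => Polynomial.X - Polynomial.C a)).prod * w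
      = 0 := by
    rw [← hPp, hPZ]
  obtain ⟨α, hα, q, hw', hZw'⟩ := eig_aux Z P.roots w hw hprod
  have hα' : Polynomial.eval α P = 0 := by
    have := (Polynomial.mem_roots hPm.ne_zero).1 hα
    exact this
  have hcomm : Polynomial.aeval Z q * Z = Z * Polynomial.aeval Z q := by
    have h1 : Polynomial.aeval Z q * Polynomial.aeval Z (Polynomial.X : Polynomial Ω) =
        Polynomial.aeval Z (Polynomial.X : Polynomial Ω) * Polynomial.aeval Z q := by
      rw [← map_mul, ← map_mul, mul_comm]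
    rwa [Polynomial.aeval_X] at h1
  have h3 : lam • ((Polynomial.aeval Z q * w) * Z) = α • (Polynomial.aeval Z q * w) := by
    rw [← hZw', ← mul_assoc, ← hcomm, mul_assoc, mul_assoc, hZw, mul_smul_comm]
  have h4 : (Polynomial.aeval Z q * w) * Z = (lam⁻¹ * α) • (Polynomial.aeval Z q * w) := by
    rw [← smul_smul, ← h3, smul_smul, inv_mul_cancel₀ hlam, one_smul]
  have h5 := right_aux Z _ _ h4 P'
  rw [mul_assoc, hPZ', mul_zero] at h5
  have h6 : Polynomial.eval (lam⁻¹ * α) P' = 0 := by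
    rcases smul_eq_zero.1 h5.symm with h | h
    · exact h
    · exact absurd h hw'
  refine ⟨α, lam⁻¹ * α, by rw [← hev, hα'], by rw [← hev, h6], ?_⟩
  rw [← mul_assoc, mul_inv_cancel₀ hlam, one_mul]

/-- the determinant of `y ↦ z y z⁻¹` on a space of homomorphisms between two spaces on which `z`
satisfies irreducible equations and has the same normalised determinant, up to roots of unity -/
theorem det_pair {K R V₁ V₂ : Type} [Field K] [Ring R] [Algebra K R] [FiniteDimensional K R]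
    [AddCommGroup V₁] [Module K V₁] [FiniteDimensional K V₁]
    [AddCommGroup V₂] [Module K V₂] [FiniteDimensional K V₂]
    (P₁ P₂ : K[X]) (hm₁ : P₁.Monic) (hm₂ : P₂.Monic) (hi₁ : Irreducible P₁)
    (hi₂ : Irreducible P₂) (T₁ : V₁ →ₗ[K] V₁) (hT₁ : aeval T₁ P₁ = 0)
    (T₂ : V₂ →ₗ[K] V₂) (hT₂ : aeval T₂ P₂ = 0)
    (hd₁ : 0 < Module.finrank K V₁) (hd₂ : 0 < Module.finrank K V₂) (t : ℕ) (ht : 1 ≤ t)
    (hdet : LinearMap.det T₁ ^ (Module.finrank K V₂ * t) =
      LinearMap.det T₂ ^ (Module.finrank K V₁ * t)) (hne : LinearMap.det T₂ ≠ 0)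
    (z z' : R) (h1 : z * z' = 1) (h2 : z' * z = 1) (S : Submodule K R)
    (hS₁ : ∀ y ∈ S, aeval z P₁ * y = 0) (hS₂ : ∀ y ∈ S, y * aeval z P₂ = 0)
    (B : S →ₗ[K] S) (hB : ∀ x : S, (B x : R) = z * x * z') :
    ∃ M : ℕ, 1 ≤ M ∧ LinearMap.det B ^ M = 1 := by
  set Q : K[X] := P₁ * (P₂ * (T₁.charpoly * (T₂.charpoly * B.charpoly))) with hQ
  have hQ0 : Q ≠ 0 := mul_ne_zero hm₁.ne_zero (mul_ne_zero hm₂.ne_zero
    (mul_ne_zero (LinearMap.charpoly_monic _).ne_zero (mul_ne_zero
    (LinearMap.charpoly_monic _).ne_zero (LinearMap.charpoly_monic _).ne_zero)))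
  let Ek := Q.SplittingField
  have hspl := Polynomial.SplittingField.splits Q
  have hmap0 : Q.map (algebraMap K Ek) ≠ 0 := Polynomial.map_ne_zero hQ0
  have hsd : ∀ P : K[X], P ∣ Q → (P.map (algebraMap K Ek)).Splits := fun P hP =>
    hspl.of_dvd hmap0 (Polynomial.map_dvd _ hP)
  have hs₁ := hsd P₁ (Dvd.intro _ rfl)
  have hs₂ := hsd P₂ ((Dvd.intro _ rfl : P₂ ∣ P₂ * (T₁.charpoly * (T₂.charpoly *
    B.charpoly))).trans (Dvd.intro_left P₁ rfl))
  have hsT₁ := hsd T₁.charpoly ((Dvd.intro _ rfl : T₁.charpoly ∣ T₁.charpoly *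
    (T₂.charpoly * B.charpoly)).trans ((Dvd.intro_left P₂ rfl).trans (Dvd.intro_left P₁ rfl)))
  have hsT₂ := hsd T₂.charpoly ((Dvd.intro _ rfl : T₂.charpoly ∣ T₂.charpoly * B.charpoly).trans
    ((Dvd.intro_left T₁.charpoly rfl).trans ((Dvd.intro_left P₂ rfl).trans
      (Dvd.intro_left P₁ rfl))))
  have hsB := hsd B.charpoly ((Dvd.intro_left T₂.charpoly rfl).trans
    ((Dvd.intro_left T₁.charpoly rfl).trans ((Dvd.intro_left P₂ rfl).trans
      (Dvd.intro_left P₁ rfl))))
  haveI : Normal K Ek := Normal.of_isSplittingField Q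
  set e := Module.finrank K Ek with he
  have he1 : 1 ≤ e := Module.finrank_pos
  -- roots of the two polynomials
  obtain ⟨α₀, hα₀⟩ : ∃ α₀ : Ek, aeval α₀ P₁ = 0 := by
    have hdeg : (P₁.map (algebraMap K Ek)).degree ≠ 0 := by
      rw [Polynomial.degree_map]
      exact (Polynomial.degree_pos_of_irreducible hi₁).ne'
    obtain ⟨r, hr⟩ := hs₁.exists_eval_eq_zero hdeg
    exact ⟨r, by rwa [Polynomial.eval_map_algebraMap] at hr⟩
  obtain ⟨β₀, hβ₀⟩ : ∃ β₀ : Ek, aeval β₀ P₂ = 0 := by
    have hdeg : (P₂.map (algebraMap K Ek)).degree ≠ 0 := by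
      rw [Polynomial.degree_map]
      exact (Polynomial.degree_pos_of_irreducible hi₂).ne'
    obtain ⟨r, hr⟩ := hs₂.exists_eval_eq_zero hdeg
    exact ⟨r, by rwa [Polynomial.eval_map_algebraMap] at hr⟩
  have hN₁ := norm_det_const (Ek := Ek) T₁ hsT₁ (Algebra.norm K α₀) 1 (fun lam hl => by
    rw [pow_one]
    exact norm_conj P₁ hm₁ hi₁ _ _ (root_of_aeval T₁ P₁ hT₁ lam hl) hα₀)
  have hN₂ := norm_det_const (Ek := Ek) T₂ hsT₂ (Algebra.norm K β₀) 1 (fun lam hl => by
    rw [pow_one]
    exact norm_conj P₂ hm₂ hi₂ _ _ (root_of_aeval T₂ P₂ hT₂ lam hl) hβ₀)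
  rw [pow_one] at hN₁ hN₂
  set d₁ := Module.finrank K V₁ with hd₁def
  set d₂ := Module.finrank K V₂ with hd₂def
  have hβN : Algebra.norm K β₀ ≠ 0 := by
    intro h0
    rw [h0, zero_pow hd₂.ne'] at hN₂
    exact hne (pow_eq_zero_iff (Nat.one_le_iff_ne_zero.1 he1) |>.1 hN₂)
  have hνν : Algebra.norm K α₀ ^ (d₁ * d₂ * t) = Algebra.norm K β₀ ^ (d₁ * d₂ * t) := by
    calc Algebra.norm K α₀ ^ (d₁ * d₂ * t) = (Algebra.norm K α₀ ^ d₁) ^ (d₂ * t) := by
          rw [← pow_mul, mul_assoc]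
      _ = (LinearMap.det T₁ ^ (d₂ * t)) ^ e := by rw [← hN₁, ← pow_mul, ← pow_mul, mul_comm]
      _ = (LinearMap.det T₂ ^ (d₁ * t)) ^ e := by rw [hdet]
      _ = (Algebra.norm K β₀ ^ d₂) ^ (d₁ * t) := by rw [← hN₂, ← pow_mul, ← pow_mul, mul_comm]
      _ = Algebra.norm K β₀ ^ (d₁ * d₂ * t) := by
          rw [← pow_mul, ← mul_assoc, mul_comm d₂ d₁]
  refine ⟨e * (d₁ * d₂ * t), ?_, ?_⟩
  · have : 0 < d₁ * d₂ * t := Nat.mul_pos (Nat.mul_pos hd₁ hd₂) ht
    exact Nat.mul_pos he1 this
  rw [pow_mul]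
  rw [norm_det_const (Ek := Ek) B hsB 1 (d₁ * d₂ * t) ?_, one_pow]
  intro lam hl
  obtain ⟨v, hv0, hv1, -⟩ := exists_eigvec B lam hl
  set ι : TensorProduct K Ek S →ₗ[Ek] TensorProduct K Ek R := S.subtype.baseChange Ek with hι
  have hιinj : Function.Injective ι := by
    have : Function.Injective (S.subtype.lTensor Ek) :=
      Module.Flat.lTensor_preserves_injective_linearMap _ S.injective_subtype
    exact this
  set Z : TensorProduct K Ek R := Algebra.TensorProduct.includeRight z with hZ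
  set Z' : TensorProduct K Ek R := Algebra.TensorProduct.includeRight z' with hZ'
  have hZZ' : Z * Z' = 1 := by rw [hZ, hZ', ← map_mul, h1, map_one]
  have hZ'Z : Z' * Z = 1 := by rw [hZ, hZ', ← map_mul, h2, map_one]
  have hconj : ∀ x, ι (B.baseChange Ek x) = Z * ι x * Z' := by
    intro x
    induction x using TensorProduct.induction_on with
    | zero => simp
    | add x y hx hy => rw [map_add, map_add, map_add, hx, hy, mul_add, add_mul]
    | tmul e s =>
      rw [hι, LinearMap.baseChange_tmul, LinearMap.baseChange_tmul,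
        LinearMap.baseChange_tmul, hZ, hZ', Algebra.TensorProduct.includeRight_apply,
        Algebra.TensorProduct.includeRight_apply, Algebra.TensorProduct.tmul_mul_tmul,
        Algebra.TensorProduct.tmul_mul_tmul, one_mul, mul_one]
      congr 1
      exact hB s
  have hL₁ : ∀ x, aeval Z P₁ * ι x = 0 := by
    intro x
    have hZP : aeval Z P₁ = Algebra.TensorProduct.includeRight (aeval z P₁) := by
      rw [hZ, Polynomial.aeval_algHom_apply]
    rw [hZP]
    induction x using TensorProduct.induction_on with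
    | zero => simp
    | add x y hx hy => rw [map_add, mul_add, hx, hy, add_zero]
    | tmul e s =>
      rw [hι, LinearMap.baseChange_tmul, Algebra.TensorProduct.includeRight_apply,
        Algebra.TensorProduct.tmul_mul_tmul, one_mul]
      have h5 : aeval z P₁ * (S.subtype s) = 0 := hS₁ s s.2
      rw [h5, TensorProduct.tmul_zero]
  have hL₂ : ∀ x, ι x * aeval Z P₂ = 0 := by
    intro x
    have hZP : aeval Z P₂ = Algebra.TensorProduct.includeRight (aeval z P₂) := by
      rw [hZ, Polynomial.aeval_algHom_apply]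
    rw [hZP]
    induction x using TensorProduct.induction_on with
    | zero => simp
    | add x y hx hy => rw [map_add, add_mul, hx, hy, add_zero]
    | tmul e s =>
      rw [hι, LinearMap.baseChange_tmul, Algebra.TensorProduct.includeRight_apply,
        Algebra.TensorProduct.tmul_mul_tmul, mul_one]
      have h5 : (S.subtype s) * aeval z P₂ = 0 := hS₂ s s.2
      rw [h5, TensorProduct.tmul_zero]
  have hw0 : ι v ≠ 0 := fun h => hv0 (hιinj (by rw [h, map_zero]))
  have hwl : Z * ι v * Z' = lam • ι v := by rw [← hconj, hv1, map_smul]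
  obtain ⟨α, β, hα, hβ, hαβ⟩ := eig_quot2 Z Z' (ι v) hZZ' hZ'Z P₁ P₂ (hL₁ v) (hL₂ v) hs₁ hm₁ hw0
    lam hwl
  have hNα := norm_conj P₁ hm₁ hi₁ α α₀ hα hα₀
  have hNβ := norm_conj P₂ hm₂ hi₂ β β₀ hβ hβ₀
  have h7 : Algebra.norm K lam * Algebra.norm K β₀ = Algebra.norm K α₀ := by
    rw [← hNβ, ← map_mul, hαβ, hNα]
  have h8 : Algebra.norm K lam ^ (d₁ * d₂ * t) * Algebra.norm K β₀ ^ (d₁ * d₂ * t) =
      1 * Algebra.norm K β₀ ^ (d₁ * d₂ * t) := by
    rw [← mul_pow, h7, hνν, one_mul]
  exact mul_right_cancel₀ (pow_ne_zero _ hβN) h8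

end Pool.Agent.KS6_3.RX
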