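import Pool.Agent.KS6_3.RX.Pure

/-!
Extensions of representations of the same weight split over `F`.
-/

namespace Pool.Agent.KS6_3.RX

open Pool.Agent.Helper156.RWF

variable {p : ℕ} [Fact p.Prime]
variable {F : Type} [Group F] [TopologicalSpace F] [IsTopologicalGroup F] [CompactSpace F]
  [T2Space F] [TotallyDisconnectedSpace F]

/-- an extension of irreducible representations of the same weight splits over `F` -/
theorem ext_split {d : ℕ} {x : Fin d → F}
    (hx : Dense ((Subgroup.closure (Set.range x) : Subgroup F) : Set F))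
    (φ : F ≃ₜ* F) (hφ : ¬ Bad p φ) {L : Type} [NormedField L] [NormedAlgebra ℚ_[p] L]
    [FiniteDimensional ℚ_[p] L] {n m : ℕ}
    (ρ : WeilGroup φ →* GL (Fin n) L) (hρ : Continuous ρ) (hρi : IsIrredRep ρ)
    (σ : WeilGroup φ →* GL (Fin m) L) (hσ : Continuous σ) (hσi : IsIrredRep σ)
    (hw : SameWeight ρ σ) (τ : WeilGroup φ →* GL (Fin n ⊕ Fin m) L) (hτ : Continuous τ)
    (u : WeilGroup φ → Matrix (Fin n) (Fin m) L)
    (hb : ∀ w, (τ w : Matrix (Fin n ⊕ Fin m) (Fin n ⊕ Fin m) L) =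
      Matrix.fromBlocks (ρ w : Matrix (Fin n) (Fin n) L) (u w) 0
        (σ w : Matrix (Fin m) (Fin m) L)) :
    ∃ e : Matrix (Fin n) (Fin m) L, ∀ f : F,
      Matrix.fromBlocks 1 e 0 1 *
        (τ (inF φ f) : Matrix (Fin n ⊕ Fin m) (Fin n ⊕ Fin m) L) =
      Matrix.fromBlocks (ρ (inF φ f) : Matrix (Fin n) (Fin n) L) 0 0
        (σ (inF φ f) : Matrix (Fin m) (Fin m) L) * Matrix.fromBlocks 1 e 0 1 := by
  have hσinv : ∀ w, (σ w : Matrix (Fin m) (Fin m) L) *
      (((σ w)⁻¹ : GL (Fin m) L) : Matrix (Fin m) (Fin m) L) = 1 := fun w => by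
    rw [← Units.val_mul, mul_inv_cancel, Units.val_one]
  have hσinv' : ∀ w, (((σ w)⁻¹ : GL (Fin m) L) : Matrix (Fin m) (Fin m) L) *
      (σ w : Matrix (Fin m) (Fin m) L) = 1 := fun w => by
    rw [← Units.val_mul, inv_mul_cancel, Units.val_one]
  have hu : ∀ w w', u (w * w') = (ρ w : Matrix (Fin n) (Fin n) L) * u w' +
      u w * (σ w' : Matrix (Fin m) (Fin m) L) := by
    intro w w'
    have h1 := hb (w * w')
    rw [map_mul, Units.val_mul, hb w, hb w', Matrix.fromBlocks_multiply] at h1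
    have h2 := (Matrix.fromBlocks_inj.1 h1).2.1
    exact h2.symm
  have huc : Continuous u := by
    have h1 : u = fun w => ((τ w : Matrix (Fin n ⊕ Fin m) (Fin n ⊕ Fin m) L)).toBlocks₁₂ := by
      funext w
      rw [hb w, Matrix.toBlocks_fromBlocks₁₂]
    rw [h1]
    have h2 : Continuous fun w => (τ w : Matrix (Fin n ⊕ Fin m) (Fin n ⊕ Fin m) L) :=
      Units.continuous_val.comp hτ
    refine continuous_pi fun i => continuous_pi fun j => ?_
    exact (continuous_apply_apply (Sum.inl i) (Sum.inr j)).comp h2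
  -- the cocycle on the Weil group
  obtain ⟨C, hC⟩ : ∃ C : WeilGroup φ → Matrix (Fin n) (Fin m) L,
      ∀ w, C w = u w * (((σ w)⁻¹ : GL (Fin m) L) : Matrix (Fin m) (Fin m) L) := ⟨_, fun _ => rfl⟩
  have hCmul : ∀ w w', C (w * w') = C w + (ρ w : Matrix (Fin n) (Fin n) L) * C w' *
      (((σ w)⁻¹ : GL (Fin m) L) : Matrix (Fin m) (Fin m) L) := by
    intro w w'
    rw [hC, hC, hC, hu, map_mul, mul_inv_rev, Units.val_mul]
    rw [Matrix.add_mul]
    have h1 : u w * (σ w' : Matrix (Fin m) (Fin m) L) *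
        ((((σ w')⁻¹ : GL (Fin m) L) : Matrix (Fin m) (Fin m) L) *
          (((σ w)⁻¹ : GL (Fin m) L) : Matrix (Fin m) (Fin m) L)) =
        u w * (((σ w)⁻¹ : GL (Fin m) L) : Matrix (Fin m) (Fin m) L) := by
      calc _ = u w * ((σ w' : Matrix (Fin m) (Fin m) L) *
            (((σ w')⁻¹ : GL (Fin m) L) : Matrix (Fin m) (Fin m) L)) *
            (((σ w)⁻¹ : GL (Fin m) L) : Matrix (Fin m) (Fin m) L) := by
              simp only [Matrix.mul_assoc]
        _ = _ := by rw [hσinv, Matrix.mul_one]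
    rw [h1, add_comm]
    congr 1
    rw [← Matrix.mul_assoc, ← Matrix.mul_assoc]
  have hinF : Continuous (fun f : F => inF φ f) := inF_cont φ
  have hcc : Continuous (fun f : F => C (inF φ f)) := by
    have h1 : (fun f : F => C (inF φ f)) = fun f : F => u (inF φ f) *
        (((σ (inF φ f))⁻¹ : GL (Fin m) L) : Matrix (Fin m) (Fin m) L) := funext fun f => hC _
    rw [h1]
    refine Continuous.matrix_mul (huc.comp hinF) ?_
    exact Units.continuous_val.comp (continuous_inv.comp (hσ.comp hinF))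
  have hinFmul : ∀ f h : F, inF φ (f * h) = inF φ f * inF φ h := fun f h => map_mul _ _ _
  obtain ⟨e, he⟩ := pure_of_not_bad hx φ hφ ρ hρ hρi σ hσ hσi hw (fun f => C (inF φ f)) hcc
    (fun f h => by
      show C (inF φ (f * h)) = _
      rw [hinFmul, hCmul])
    ⟨C (frob φ), fun f => by
      have h1 : inF φ f * frob φ = frob φ * inF φ (φ.symm f) := by
        have h2 := inF_phi φ (φ.symm f)
        have h3 : φ (φ.symm f) = f := φ.apply_symm_apply f
        rw [h3] at h2
        rw [h2, inv_mul_cancel_right]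
      have h4 := hCmul (inF φ f) (frob φ)
      have h5 := hCmul (frob φ) (inF φ (φ.symm f))
      rw [← h1, h4] at h5
      show (ρ (frob φ) : Matrix (Fin n) (Fin n) L) * C (inF φ (φ.symm f)) *
        (((σ (frob φ))⁻¹ : GL (Fin m) L) : Matrix (Fin m) (Fin m) L) - C (inF φ f) = _
      rw [sub_eq_sub_iff_add_eq_add]
      rw [add_comm, ← h5, add_comm]⟩
  refine ⟨e, fun f => ?_⟩
  have h1 : C (inF φ f) = (ρ (inF φ f) : Matrix (Fin n) (Fin n) L) * e *
      (((σ (inF φ f))⁻¹ : GL (Fin m) L) : Matrix (Fin m) (Fin m) L) - e := he f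
  have h2 : u (inF φ f) = (ρ (inF φ f) : Matrix (Fin n) (Fin n) L) * e -
      e * (σ (inF φ f) : Matrix (Fin m) (Fin m) L) := by
    have h3 : C (inF φ f) * (σ (inF φ f) : Matrix (Fin m) (Fin m) L) =
        ((ρ (inF φ f) : Matrix (Fin n) (Fin n) L) * e *
          (((σ (inF φ f))⁻¹ : GL (Fin m) L) : Matrix (Fin m) (Fin m) L) - e) *
          (σ (inF φ f) : Matrix (Fin m) (Fin m) L) := by rw [← h1]
    rw [hC, Matrix.mul_assoc, hσinv', Matrix.mul_one, Matrix.sub_mul, Matrix.mul_assoc, hσinv',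
      Matrix.mul_one] at h3
    exact h3
  rw [hb, h2, Matrix.fromBlocks_multiply, Matrix.fromBlocks_multiply]
  congr 1 <;> simp

end Pool.Agent.KS6_3.RX
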