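import Pool.Agent.KS6_3.RW.Helper156.RWF.D0
import Pool.Agent.KS6_3.RW.Helper156.RWF.J12831
import Pool.Agent.KS6_3.RW.Helper156.RWF.J13853
import Pool.Agent.KS6_3.RW.Helper156.RWF.J14315

/-!
Transport of a representation of the Weil group to an integral representation over the `p`-adic
numbers (adapted from the library module J14315).
-/

namespace Pool.Agent.KS6_3.RX

open Pool.Agent.Helper156.RWF Pool.Agent.Helper156.RWF.J12831 Pool.Agent.Helper156.RWF.J13853
open Pool.Agent.Helper156.RWF.J14315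
open Filter Topology MeasureTheory

variable {p : ℕ} [Fact p.Prime]
variable {F : Type} [Group F] [TopologicalSpace F]
variable {L : Type} [NormedField L] [NormedAlgebra ℚ_[p] L] [FiniteDimensional ℚ_[p] L] {N : ℕ}
variable {ι : Type} [Fintype ι] [DecidableEq ι]

theorem exists_Psi (T : (Fin N → ℚ_[p]) ≃L[ℚ_[p]] (ι → L)) :
    ∃ Ψ : Matrix ι ι L →ₐ[ℚ_[p]] EN p N, ∀ M v, Ψ M v = T.symm (M.mulVec (T v)) := by
  let g : Matrix ι ι L → EN p N := fun M => LinearMap.toContinuousLinearMap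
    { toFun := fun v => T.symm (M.mulVec (T v))
      map_add' := fun v w => by rw [map_add, Matrix.mulVec_add, map_add]
      map_smul' := fun c v => by
        rw [map_smul, Matrix.mulVec_smul, map_smul, RingHom.id_apply] }
  have hg : ∀ M v, g M v = T.symm (M.mulVec (T v)) := fun _ _ => rfl
  refine ⟨⟨⟨⟨⟨g, ?_⟩, ?_⟩, ?_, ?_⟩, ?_⟩, hg⟩
  · refine ContinuousLinearMap.ext fun v => ?_
    rw [hg, Matrix.one_mulVec, ContinuousLinearEquiv.symm_apply_apply]
    rfl
  · intro M M'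
    refine ContinuousLinearMap.ext fun v => ?_
    show g (M * M') v = g M (g M' v)
    rw [hg, hg, hg, ContinuousLinearEquiv.apply_symm_apply, Matrix.mulVec_mulVec]
  · refine ContinuousLinearMap.ext fun v => ?_
    show g 0 v = 0
    rw [hg, Matrix.zero_mulVec, map_zero]
  · intro M M'
    refine ContinuousLinearMap.ext fun v => ?_
    show g (M + M') v = g M v + g M' v
    rw [hg, hg, hg, Matrix.add_mulVec, map_add]
  · intro q
    refine ContinuousLinearMap.ext fun v => ?_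
    show g (algebraMap ℚ_[p] (Matrix ι ι L) q) v = q • v
    rw [hg, Algebra.algebraMap_eq_smul_one, Matrix.smul_mulVec, Matrix.one_mulVec, map_smul,
      ContinuousLinearEquiv.symm_apply_apply]

theorem Psi_inj (T : (Fin N → ℚ_[p]) ≃L[ℚ_[p]] (ι → L))
    (Ψ : Matrix ι ι L →ₐ[ℚ_[p]] EN p N) (hΨ : ∀ M v, Ψ M v = T.symm (M.mulVec (T v))) :
    Function.Injective Ψ := by
  intro M M' h
  apply Matrix.toLin'.injective
  refine LinearMap.ext fun w => ?_
  rw [Matrix.toLin'_apply, Matrix.toLin'_apply]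
  have h1 := hΨ M (T.symm w)
  rw [h, hΨ, ContinuousLinearEquiv.apply_symm_apply] at h1
  exact (T.symm.injective h1).symm

theorem Psi_cont (T : (Fin N → ℚ_[p]) ≃L[ℚ_[p]] (ι → L))
    (Ψ : Matrix ι ι L →ₐ[ℚ_[p]] EN p N) (hΨ : ∀ M v, Ψ M v = T.symm (M.mulVec (T v))) :
    Continuous Ψ := by
  rw [continuous_clm_apply]
  intro v
  simp only [hΨ]
  exact T.symm.continuous.comp (Continuous.matrix_mulVec continuous_id continuous_const)

theorem Psi_smul (T : (Fin N → ℚ_[p]) ≃L[ℚ_[p]] (ι → L))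
    (Ψ : Matrix ι ι L →ₐ[ℚ_[p]] EN p N) (hΨ : ∀ M v, Ψ M v = T.symm (M.mulVec (T v)))
    (l : L) (u : ι → L) :
    Ψ (l • (1 : Matrix ι ι L)) (T.symm u) = T.symm (l • u) := by
  rw [hΨ, ContinuousLinearEquiv.apply_symm_apply, Matrix.smul_mulVec, Matrix.one_mulVec]

section stab

variable {φ : F ≃ₜ* F} (R : WeilGroup φ → Matrix ι ι L) (hR1 : R 1 = 1)
  (hRmul : ∀ w w', R (w * w') = R w * R w')

include hR1 hRmul in
/-- stability under `F` and the Frobenius implies stability under the Weil group -/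
theorem stable_all (U : Submodule L (ι → L))
    (h1 : ∀ f : F, ∀ v ∈ U, (R (inF φ f)).mulVec v ∈ U)
    (h2 : ∀ v ∈ U, (R (frob φ)).mulVec v ∈ U) : ∀ w, ∀ v ∈ U, (R w).mulVec v ∈ U := by
  have hfrob2 : R (frob φ)⁻¹ * R (frob φ) = 1 := by rw [← hRmul, inv_mul_cancel, hR1]
  have hinv : ∀ v, (R (frob φ)⁻¹).mulVec ((R (frob φ)).mulVec v) = v := by
    intro v
    rw [Matrix.mulVec_mulVec, hfrob2, Matrix.one_mulVec]
  have hW4 : ∀ w ∈ U, (R (frob φ)⁻¹).mulVec w ∈ U := by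
    let ga : (ι → L) →ₗ[L] (ι → L) := Matrix.toLin' (R (frob φ))
    have hga : ∀ w, ga w = (R (frob φ)).mulVec w := fun _ => rfl
    let gW : U →ₗ[L] U := ga.restrict (fun w hw => h2 w hw)
    have hinj : Function.Injective gW := by
      intro w w' hww
      apply Subtype.ext
      have h1 : (R (frob φ)).mulVec w.1 = (R (frob φ)).mulVec w'.1 := congrArg Subtype.val hww
      have h2 := congrArg (R (frob φ)⁻¹).mulVec h1
      rwa [hinv, hinv] at h2
    have hsurj : Function.Surjective gW := LinearMap.surjective_of_injective hinj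
    intro w hw
    obtain ⟨w', hw'⟩ := hsurj ⟨w, hw⟩
    have h1 : (R (frob φ)).mulVec w'.1 = w := congrArg Subtype.val hw'
    rw [← h1, hinv]
    exact w'.2
  have hmulW : ∀ w w' : WeilGroup φ, (∀ y ∈ U, (R w).mulVec y ∈ U) →
      (∀ y ∈ U, (R w').mulVec y ∈ U) → ∀ y ∈ U, (R (w * w')).mulVec y ∈ U := by
    intro w w' h1 h2 y hy
    rw [hRmul, ← Matrix.mulVec_mulVec]
    exact h1 _ (h2 _ hy)
  have hpow : ∀ (w : WeilGroup φ), (∀ y ∈ U, (R w).mulVec y ∈ U) → ∀ (m : ℕ),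
      ∀ y ∈ U, (R (w ^ m)).mulVec y ∈ U := by
    intro w hw m
    induction m with
    | zero =>
      intro y hy
      rw [pow_zero, hR1, Matrix.one_mulVec]
      exact hy
    | succ m ih =>
      rw [pow_succ]
      exact hmulW _ _ ih hw
  have hzpow : ∀ k : ℤ, ∀ y ∈ U, (R (frob φ ^ k)).mulVec y ∈ U := by
    intro k
    obtain ⟨m, rfl | rfl⟩ := k.eq_nat_or_neg
    · rw [zpow_natCast]
      exact hpow _ h2 m
    · rw [zpow_neg, zpow_natCast, ← inv_pow]
      exact hpow _ hW4 m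
  intro w
  have h1' : w = inF φ w.left * frob φ ^ (Multiplicative.toAdd w.right) := by
    conv_lhs => rw [← SemidirectProduct.inl_left_mul_inr_right w]
    congr 1
    unfold frob
    rw [← map_zpow]
    congr 1
    rw [← ofAdd_zsmul, smul_eq_mul, mul_one, ofAdd_toAdd]
  rw [h1']
  exact hmulW _ _ (h1 _) (hzpow _)

end stab

variable [IsTopologicalGroup F] [CompactSpace F] [T2Space F] [TotallyDisconnectedSpace F]

/-- an integral model of a representation of the Weil group -/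
theorem transport [Nonempty ι] {φ : F ≃ₜ* F} (R : WeilGroup φ → Matrix ι ι L) (hR1 : R 1 = 1)
    (hRmul : ∀ w w', R (w * w') = R w * R w') (hRc : Continuous (fun f : F => R (inF φ f))) :
    ∃ (N : ℕ) (_ : 1 ≤ N) (T : (Fin N → ℚ_[p]) ≃L[ℚ_[p]] (ι → L))
      (Ψ : Matrix ι ι L →ₐ[ℚ_[p]] EN p N) (ρ' : F →* EN p N),
      (∀ M v, Ψ M v = T.symm (M.mulVec (T v))) ∧ (∀ f, ρ' f = Ψ (R (inF φ f))) ∧
      Continuous ρ' ∧ (∀ f, ‖ρ' f‖ ≤ 1) ∧
      (∀ f, ρ' (φ f) = Ψ (R (frob φ)) * ρ' f * Ψ (R (frob φ)⁻¹)) := by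
  haveI hul : IsUltrametricDist L := IsUltrametricDist.of_normedAlgebra ℚ_[p]
  haveI hprop : ProperSpace (ι → L) := FiniteDimensional.proper ℚ_[p] _
  have hinFmul : ∀ f h : F, inF φ (f * h) = inF φ f * inF φ h := fun f h => map_mul _ _ _
  have hinF1 : inF φ (1 : F) = 1 := map_one _
  have hRvc : ∀ v, Continuous fun f => (R (inF φ f)).mulVec v := fun v =>
    Continuous.matrix_mulVec hRc continuous_const
  -- the lattice
  obtain ⟨Λ, hΛ⟩ : ∃ Λ : Set (ι → L), Λ = {v | ∀ f : F, ‖(R (inF φ f)).mulVec v‖ ≤ 1} :=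
    ⟨_, rfl⟩
  have hΛm : ∀ v, v ∈ Λ ↔ ∀ f : F, ‖(R (inF φ f)).mulVec v‖ ≤ 1 := fun v => by rw [hΛ]; rfl
  have hΛc : IsCompact Λ := by
    refine (isCompact_closedBall (0 : ι → L) 1).of_isClosed_subset ?_ ?_
    · rw [hΛ, Set.setOf_forall]
      refine isClosed_iInter fun f => ?_
      refine isClosed_le (Continuous.norm ?_) continuous_const
      exact Continuous.matrix_mulVec continuous_const continuous_id
    · intro v hv
      rw [mem_closedBall_zero_iff]
      have := (hΛm v).1 hv 1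
      rwa [hinF1, hR1, Matrix.one_mulVec] at this
  have hΛadd : ∀ x ∈ Λ, ∀ y ∈ Λ, x + y ∈ Λ := by
    intro x hx y hy
    rw [hΛm] at hx hy ⊢
    intro f
    rw [Matrix.mulVec_add]
    exact (IsUltrametricDist.norm_add_le_max _ _).trans (max_le (hx f) (hy f))
  have hΛneg : ∀ x ∈ Λ, -x ∈ Λ := by
    intro x hx
    rw [hΛm] at hx ⊢
    intro f
    rw [Matrix.mulVec_neg, norm_neg]
    exact hx f
  have hΛ0 : (0 : ι → L) ∈ Λ := by
    rw [hΛm]
    intro f
    rw [Matrix.mulVec_zero, norm_zero]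
    exact zero_le_one
  have hΛspan : Submodule.span ℚ_[p] Λ = ⊤ := by
    rw [eq_top_iff]
    intro v _
    obtain ⟨C, hC⟩ := isCompact_univ.exists_bound_of_continuousOn (hRvc v).continuousOn
    obtain ⟨t, ht0, ht⟩ := NormedField.exists_norm_lt ℚ_[p]
      (show (0:ℝ) < 1 / (|C| + 1) by positivity)
    have htv : t • v ∈ Λ := by
      rw [hΛm]
      intro f
      rw [Matrix.mulVec_smul, norm_smul]
      have h1 := hC f (Set.mem_univ f)
      have h2 : ‖(R (inF φ f)).mulVec v‖ ≤ |C| + 1 := by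
        have := le_abs_self C
        linarith
      calc ‖t‖ * ‖(R (inF φ f)).mulVec v‖ ≤ 1 / (|C| + 1) * (|C| + 1) :=
            mul_le_mul ht.le h2 (norm_nonneg _) (by positivity)
        _ = 1 := by field_simp
    have ht' : t ≠ 0 := norm_pos_iff.1 ht0
    have h3 : v = t⁻¹ • (t • v) := by rw [smul_smul, inv_mul_cancel₀ ht', one_smul]
    rw [h3]
    exact Submodule.smul_mem _ _ (Submodule.subset_span htv)
  obtain ⟨N, hN, T, hT⟩ : ∃ (N : ℕ) (_ : 1 ≤ N) (T : (Fin N → ℚ_[p]) ≃L[ℚ_[p]] (ι → L)),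
      T '' {v | ‖v‖ ≤ 1} = Λ := by
    obtain ⟨T, hT⟩ := lattice_basis Λ hΛc hΛadd hΛneg hΛ0 hΛspan
    exact ⟨_, Module.finrank_pos, T, hT⟩
  obtain ⟨Ψ, hΨ⟩ := exists_Psi T
  have hΨc := Psi_cont T Ψ hΨ
  obtain ⟨ρ', hρ'⟩ : ∃ ρ' : F →* EN p N, ∀ f, ρ' f = Ψ (R (inF φ f)) :=
    ⟨⟨⟨fun f => Ψ (R (inF φ f)), by rw [hinF1, hR1, map_one]⟩, fun f h => by
      show Ψ (R (inF φ (f * h))) = Ψ (R (inF φ f)) * Ψ (R (inF φ h))
      rw [hinFmul, hRmul, map_mul]⟩, fun _ => rfl⟩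
  have hρ'c : Continuous ρ' := by
    have : (ρ' : F → EN p N) = fun f => Ψ (R (inF φ f)) := funext hρ'
    rw [this]
    exact hΨc.comp hRc
  have hball : ∀ v : Fin N → ℚ_[p], ‖v‖ ≤ 1 ↔ T v ∈ Λ := by
    intro v
    rw [← hT]
    constructor
    · exact fun h => ⟨v, h, rfl⟩
    · rintro ⟨w, hw, hw2⟩
      rw [← T.injective hw2]
      exact hw
  have hρ'n : ∀ f, ‖ρ' f‖ ≤ 1 := by
    intro f
    refine norm_le_one315 _ fun v hv => ?_
    rw [hball] at hv ⊢
    rw [hρ', hΨ, ContinuousLinearEquiv.apply_symm_apply]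
    rw [hΛm] at hv ⊢
    intro g
    rw [Matrix.mulVec_mulVec, ← hRmul, ← hinFmul]
    exact hv (g * f)
  have hφa : ∀ f, ρ' (φ f) = Ψ (R (frob φ)) * ρ' f * Ψ (R (frob φ)⁻¹) := by
    intro f
    rw [hρ', hρ', ← map_mul, ← map_mul, ← hRmul, ← hRmul]
    congr 2
    have h1 := SemidirectProduct.inl_aut (φ := zpowersHom (MulAut F) φ.toMulEquiv)
      (Multiplicative.ofAdd 1) f
    have h2 : ((zpowersHom (MulAut F) φ.toMulEquiv) (Multiplicative.ofAdd 1)) f = φ f := by
      rw [zpowersHom_apply, toAdd_ofAdd, zpow_one]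
      rfl
    rw [h2, map_inv] at h1
    exact h1
  exact ⟨N, hN, T, Ψ, ρ', hΨ, hρ', hρ'c, hρ'n, hφa⟩

/-- subspaces over the `p`-adic numbers stable under the scalars of `L` -/
theorem exists_sub (T : (Fin N → ℚ_[p]) ≃L[ℚ_[p]] (ι → L))
    (Ψ : Matrix ι ι L →ₐ[ℚ_[p]] EN p N) (hΨ : ∀ M v, Ψ M v = T.symm (M.mulVec (T v)))
    (W : Submodule ℚ_[p] (Fin N → ℚ_[p]))
    (hW : ∀ l : L, ∀ w ∈ W, Ψ (l • (1 : Matrix ι ι L)) w ∈ W) :
    ∃ U : Submodule L (ι → L), ∀ u, u ∈ U ↔ T.symm u ∈ W := by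
  refine ⟨{ carrier := {u | T.symm u ∈ W}
            add_mem' := fun {u v} hu hv => by
              show T.symm (u + v) ∈ W
              rw [map_add]
              exact W.add_mem hu hv
            zero_mem' := by
              show T.symm 0 ∈ W
              rw [map_zero]
              exact W.zero_mem
            smul_mem' := fun l u hu => by
              show T.symm (l • u) ∈ W
              rw [← Psi_smul T Ψ hΨ]
              exact hW l _ hu }, fun u => Iff.rfl⟩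

end Pool.Agent.KS6_3.RX
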