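import Pool.Agent.KS6_3.RX.Def
import Pool.Agent.KS6_3.RX.Core
import Pool.Agent.KS6_3.RX.Det
import Pool.Agent.KS6_3.RX.Tr

/-!
Purity for automorphisms that are not bad.
-/

namespace Pool.Agent.KS6_3.RX

open Pool.Agent.Helper156.RWF Pool.Agent.Helper156.RWF.J12831 Pool.Agent.Helper156.RWF.J13861
open Filter Topology MeasureTheory Polynomial

variable {p : ℕ} [Fact p.Prime]

section lin

variable {L : Type} [NormedField L] [NormedAlgebra ℚ_[p] L] [FiniteDimensional ℚ_[p] L]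

/-- Schur: an element of the commutant of an irreducible set generates a field -/
theorem schur_minpoly {n : ℕ} (hn : 1 ≤ n) (Z : Matrix (Fin n) (Fin n) L)
    (𝒮 : Set (Matrix (Fin n) (Fin n) L)) (hZ : ∀ s ∈ 𝒮, Z * s = s * Z)
    (hirr : ∀ U : Submodule L (Fin n → L), (∀ s ∈ 𝒮, ∀ v ∈ U, s.mulVec v ∈ U) → U = ⊥ ∨ U = ⊤) :
    Irreducible (minpoly ℚ_[p] Z) := by
  have hcomm : ∀ s ∈ 𝒮, ∀ q : ℚ_[p][X], aeval Z q * s = s * aeval Z q := by
    intro s hs q
    have hc : Commute s Z := (hZ s hs).symm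
    have hn : ∀ n : ℕ, Z ^ n * s = s * Z ^ n := fun n => (hc.pow_right n).symm
    induction q using Polynomial.induction_on' with
    | add p q hp hq => rw [map_add, add_mul, mul_add, hp, hq]
    | monomial n a =>
      rw [aeval_monomial, ← Algebra.smul_def, smul_mul_assoc, mul_smul_comm, hn]
  have hker : ∀ q : ℚ_[p][X], LinearMap.ker (Matrix.toLin' (aeval Z q)) = ⊥ ∨ aeval Z q = 0 := by
    intro q
    rcases hirr (LinearMap.ker (Matrix.toLin' (aeval Z q))) (by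
      intro s hs w hw
      rw [LinearMap.mem_ker, Matrix.toLin'_apply] at hw ⊢
      rw [Matrix.mulVec_mulVec, hcomm s hs q, ← Matrix.mulVec_mulVec, hw, Matrix.mulVec_zero])
      with h | h
    · exact Or.inl h
    · right
      apply Matrix.toLin'.injective
      rw [map_zero]
      exact LinearMap.ker_eq_top.1 h
  have hint : IsIntegral ℚ_[p] Z := Algebra.IsIntegral.isIntegral Z
  have hmon : (minpoly ℚ_[p] Z).Monic := minpoly.monic hint
  haveI : Nonempty (Fin n) := ⟨⟨0, hn⟩⟩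
  refine ⟨minpoly.not_isUnit ℚ_[p] Z, ?_⟩
  intro q1 q2 hq
  have h0 : aeval Z q1 * aeval Z q2 = 0 := by
    rw [← map_mul, ← hq, minpoly.aeval]
  have hq10 : q1 ≠ 0 := by rintro rfl; rw [zero_mul] at hq; exact hmon.ne_zero hq
  have hq20 : q2 ≠ 0 := by rintro rfl; rw [mul_zero] at hq; exact hmon.ne_zero hq
  rcases hker q1 with h | h
  · have h2 : aeval Z q2 = 0 := by
      apply Matrix.toLin'.injective
      rw [map_zero]
      refine LinearMap.ext fun w => ?_
      have h3 : Matrix.toLin' (aeval Z q1) (Matrix.toLin' (aeval Z q2) w) = 0 := by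
        rw [← LinearMap.comp_apply, ← Matrix.toLin'_mul, h0, map_zero, LinearMap.zero_apply]
      have h4 : Matrix.toLin' (aeval Z q2) w ∈ LinearMap.ker (Matrix.toLin' (aeval Z q1)) := h3
      rw [h, Submodule.mem_bot] at h4
      rw [h4, LinearMap.zero_apply]
    left
    have hd : minpoly ℚ_[p] Z ∣ q2 := minpoly.dvd _ _ h2
    obtain ⟨c, hc⟩ := hd
    have : q2 * 1 = q2 * (q1 * c) := by
      rw [mul_one]
      conv_lhs => rw [hc, hq]
      ring
    have h5 := mul_left_cancel₀ hq20 this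
    exact IsUnit.of_mul_eq_one _ h5.symm
  · right
    have hd : minpoly ℚ_[p] Z ∣ q1 := minpoly.dvd _ _ h
    obtain ⟨c, hc⟩ := hd
    have : q1 * 1 = q1 * (q2 * c) := by
      rw [mul_one]
      conv_lhs => rw [hc, hq]
      ring
    have h5 := mul_left_cancel₀ hq10 this
    exact IsUnit.of_mul_eq_one _ h5.symm

/-- the matrix acting over the `p`-adic numbers -/
noncomputable def lin (p : ℕ) [Fact p.Prime] {L : Type} [NormedField L] [NormedAlgebra ℚ_[p] L]
    {n : ℕ} (Z : Matrix (Fin n) (Fin n) L) : (Fin n → L) →ₗ[ℚ_[p]] (Fin n → L) :=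
  (Matrix.toLin' Z).restrictScalars ℚ_[p]

theorem lin_aeval {n : ℕ} (Z : Matrix (Fin n) (Fin n) L) (q : ℚ_[p][X]) :
    aeval (lin p Z) q = lin p (aeval Z q) := by
  have hmul : ∀ A B : Matrix (Fin n) (Fin n) L, lin p (A * B) = lin p A * lin p B := by
    intro A B
    refine LinearMap.ext fun v => ?_
    show Matrix.toLin' (A * B) v = Matrix.toLin' A (Matrix.toLin' B v)
    rw [Matrix.toLin'_mul]
    rfl
  have hpow : ∀ k : ℕ, lin p (Z ^ k) = lin p Z ^ k := by
    intro k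
    induction k with
    | zero =>
      rw [pow_zero, pow_zero]
      refine LinearMap.ext fun v => ?_
      show Matrix.toLin' (1 : Matrix (Fin n) (Fin n) L) v = v
      rw [Matrix.toLin'_one]
      rfl
    | succ k ih => rw [pow_succ, hmul, ih, pow_succ]
  induction q using Polynomial.induction_on' with
  | add p q hp hq =>
    rw [map_add, map_add, hp, hq]
    refine LinearMap.ext fun v => ?_
    show Matrix.toLin' _ v + Matrix.toLin' _ v = Matrix.toLin' _ v
    rw [map_add]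
    rfl
  | monomial k a =>
    rw [aeval_monomial, aeval_monomial, ← Algebra.smul_def, ← Algebra.smul_def, ← hpow]
    refine LinearMap.ext fun v => ?_
    show a • Matrix.toLin' (Z ^ k) v = Matrix.toLin' (a • Z ^ k) v
    rw [Matrix.toLin'_apply, Matrix.toLin'_apply, Matrix.smul_mulVec]

theorem lin_det {n : ℕ} (Z : Matrix (Fin n) (Fin n) L) :
    LinearMap.det (lin p Z) = Algebra.norm ℚ_[p] Z.det := by
  unfold lin
  rw [LinearMap.det_restrictScalars, LinearMap.det_toLin']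

/-- block diagonal matrices and polynomials -/
theorem aeval_blocks {n m : ℕ} (A : Matrix (Fin n) (Fin n) L) (B : Matrix (Fin m) (Fin m) L)
    (q : ℚ_[p][X]) : aeval (Matrix.fromBlocks A 0 0 B) q =
      Matrix.fromBlocks (aeval A q) 0 0 (aeval B q) := by
  have hpow : ∀ k : ℕ, (Matrix.fromBlocks A 0 0 B) ^ k = Matrix.fromBlocks (A ^ k) 0 0 (B ^ k) := by
    intro k
    induction k with
    | zero => rw [pow_zero, pow_zero, pow_zero, Matrix.fromBlocks_one]
    | succ k ih =>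
      rw [pow_succ, ih, Matrix.fromBlocks_multiply, pow_succ, pow_succ]
      simp
  induction q using Polynomial.induction_on' with
  | add p q hp hq =>
    rw [map_add, map_add, map_add, hp, hq, Matrix.fromBlocks_add]
    simp
  | monomial k a =>
    rw [aeval_monomial, aeval_monomial, aeval_monomial, ← Algebra.smul_def, ← Algebra.smul_def,
      ← Algebra.smul_def, hpow, Matrix.fromBlocks_smul]
    simp

theorem blocks_conj {n m : ℕ} (A A' : Matrix (Fin n) (Fin n) L) (B B' : Matrix (Fin m) (Fin m) L)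
    (u : Matrix (Fin n) (Fin m) L) :
    Matrix.fromBlocks A 0 0 B * Matrix.fromBlocks 0 u 0 0 * Matrix.fromBlocks A' 0 0 B' =
      Matrix.fromBlocks 0 (A * u * B') 0 0 := by
  simp [Matrix.fromBlocks_multiply]

end lin

variable {F : Type} [Group F] [TopologicalSpace F] [IsTopologicalGroup F] [CompactSpace F]
  [T2Space F] [TotallyDisconnectedSpace F]

theorem inF_phi (φ : F ≃ₜ* F) (f : F) : inF φ (φ f) = frob φ * inF φ f * (frob φ)⁻¹ := by
  have h1 := SemidirectProduct.inl_aut (φ := zpowersHom (MulAut F) φ.toMulEquiv)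
    (Multiplicative.ofAdd 1) f
  have h2 : ((zpowersHom (MulAut F) φ.toMulEquiv) (Multiplicative.ofAdd 1)) f = φ f := by
    rw [zpowersHom_apply, toAdd_ofAdd, zpow_one]
    rfl
  rw [h2, map_inv] at h1
  exact h1

theorem inF_cont (φ : F ≃ₜ* F) : Continuous (fun f : F => inF φ f) := by
  refine continuous_induced_rng.2 ?_
  exact continuous_id.prodMk continuous_const

/-- determinants of `F` are roots of unity -/
theorem det_root {d : ℕ} {x : Fin d → F}
    (hx : Dense ((Subgroup.closure (Set.range x) : Subgroup F) : Set F))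
    (φ : F ≃ₜ* F) (hφ : ¬ Bad p φ) {L : Type} [NormedField L] [NormedAlgebra ℚ_[p] L]
    [FiniteDimensional ℚ_[p] L] {n : ℕ}
    (ρ : WeilGroup φ →* GL (Fin n) L) (hρ : Continuous ρ) :
    ∃ q : ℕ, 1 ≤ q ∧ ∀ f : F, (ρ (inF φ f) : Matrix (Fin n) (Fin n) L).det ^ q = 1 := by
  haveI hul : IsUltrametricDist L := IsUltrametricDist.of_normedAlgebra ℚ_[p]
  have hinF1 : inF φ (1 : F) = 1 := map_one _
  have hinFmul : ∀ f h : F, inF φ (f * h) = inF φ f * inF φ h := fun f h => map_mul _ _ _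
  obtain ⟨q, hq, hq'⟩ := T1_mat (A := L) hx φ hφ ⊤ inferInstance isOpen_univ
    (fun f => ⟨fun _ => Subgroup.mem_top _, fun _ => Subgroup.mem_top _⟩) 1 le_rfl
    (fun f => (ρ (inF φ f) : Matrix (Fin n) (Fin n) L).det)
    ((Continuous.matrix_det (Units.continuous_val.comp (hρ.comp (inF_cont φ)))).continuousOn)
    (by rw [hinF1, map_one]; exact Matrix.det_one)
    (fun f _ h _ => by rw [hinFmul, map_mul]; exact Matrix.det_mul _ _)
    (fun f _ h _ => mul_comm _ _)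
    (fun f _ => by
      rw [pow_one, inF_phi, map_mul, map_mul, map_inv]
      rw [Units.val_mul, Units.val_mul, Matrix.det_mul, Matrix.det_mul, mul_right_comm,
        ← Matrix.det_mul, ← Units.val_mul, mul_inv_cancel, Units.val_one, Matrix.det_one, one_mul])
  exact ⟨q, hq, fun f => hq' f (Subgroup.mem_top _)⟩

theorem weight_aux {L : Type} [Field L] {K : Type} [Field K] [Algebra K L]
    (χ₁ χ₂ D₁ D₂ : L) (q₁ q₂ k m n s t : ℕ) (h₁ : χ₁ ^ q₁ = 1) (h₂ : χ₂ ^ q₂ = 1)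
    (hD : D₁ ^ (m * t) = D₂ ^ (n * t)) :
    Algebra.norm K (χ₁ * D₁ ^ k) ^ (m * s * (t * q₁ * q₂)) =
      Algebra.norm K (χ₂ * D₂ ^ k) ^ (n * s * (t * q₁ * q₂)) := by
  rw [← map_pow, ← map_pow]
  congr 1
  calc (χ₁ * D₁ ^ k) ^ (m * s * (t * q₁ * q₂))
      = (χ₁ ^ q₁) ^ (m * s * t * q₂) * (D₁ ^ (m * t)) ^ (k * s * q₁ * q₂) := by
        rw [mul_pow, ← pow_mul, ← pow_mul, ← pow_mul]
        congr 2 <;> ring
    _ = (χ₂ ^ q₂) ^ (n * s * t * q₁) * (D₂ ^ (n * t)) ^ (k * s * q₁ * q₂) := by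
        rw [h₁, h₂, hD, one_pow, one_pow]
    _ = (χ₂ * D₂ ^ k) ^ (n * s * (t * q₁ * q₂)) := by
        rw [mul_pow, ← pow_mul, ← pow_mul, ← pow_mul]
        congr 2 <;> ring

/-- **Purity**, deterministic form. -/
theorem pure_of_not_bad {d : ℕ} {x : Fin d → F}
    (hx : Dense ((Subgroup.closure (Set.range x) : Subgroup F) : Set F))
    (φ : F ≃ₜ* F) (hφ : ¬ Bad p φ) {L : Type} [NormedField L] [NormedAlgebra ℚ_[p] L]
    [FiniteDimensional ℚ_[p] L] {n m : ℕ}
    (ρ : WeilGroup φ →* GL (Fin n) L) (hρ : Continuous ρ) (hρi : IsIrredRep ρ)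
    (σ : WeilGroup φ →* GL (Fin m) L) (hσ : Continuous σ) (hσi : IsIrredRep σ)
    (hw : SameWeight ρ σ) (c : F → Matrix (Fin n) (Fin m) L) (hc : Continuous c)
    (hcoc : IsCocycleHom ρ σ c)
    (hinv : IsCobdryHom ρ σ (fun x => frobActHom ρ σ c x - c x)) :
    IsCobdryHom ρ σ c := by
  obtain ⟨hn, hirr₁⟩ := hρi
  obtain ⟨hm, hirr₂⟩ := hσi
  haveI hne : Nonempty (Fin n ⊕ Fin m) := ⟨Sum.inl ⟨0, hn⟩⟩
  obtain ⟨R₁, hR₁d⟩ : ∃ R : WeilGroup φ → Matrix (Fin n) (Fin n) L,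
    R = fun w => (ρ w : Matrix (Fin n) (Fin n) L) := ⟨_, rfl⟩
  obtain ⟨R₂, hR₂d⟩ : ∃ R : WeilGroup φ → Matrix (Fin m) (Fin m) L,
    R = fun w => (σ w : Matrix (Fin m) (Fin m) L) := ⟨_, rfl⟩
  have hR₁ : ∀ w, (ρ w : Matrix (Fin n) (Fin n) L) = R₁ w := fun w => by rw [hR₁d]
  have hR₂ : ∀ w, (σ w : Matrix (Fin m) (Fin m) L) = R₂ w := fun w => by rw [hR₂d]
  have hR₁1 : R₁ 1 = 1 := by rw [← hR₁, map_one]; rfl
  have hR₂1 : R₂ 1 = 1 := by rw [← hR₂, map_one]; rfl
  have hR₁mul : ∀ w w', R₁ (w * w') = R₁ w * R₁ w' := fun w w' => by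
    rw [← hR₁, ← hR₁, ← hR₁, map_mul]; rfl
  have hR₂mul : ∀ w w', R₂ (w * w') = R₂ w * R₂ w' := fun w w' => by
    rw [← hR₂, ← hR₂, ← hR₂, map_mul]; rfl
  have hR₂inv : ∀ w, (((σ w)⁻¹ : GL (Fin m) L) : Matrix (Fin m) (Fin m) L) = R₂ w⁻¹ := fun w => by
    rw [← hR₂, map_inv]
  have hR₁c : Continuous (fun f => R₁ (inF φ f)) := by
    rw [hR₁d]
    exact Units.continuous_val.comp (hρ.comp (inF_cont φ))
  have hR₂c : Continuous (fun f => R₂ (inF φ f)) := by
    rw [hR₂d]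
    exact Units.continuous_val.comp (hσ.comp (inF_cont φ))
  have hinFmul : ∀ f h : F, inF φ (f * h) = inF φ f * inF φ h := fun f h => map_mul _ _ _
  have hinF1 : inF φ (1 : F) = 1 := map_one _
  have hinFinv : ∀ f : F, (inF φ f)⁻¹ = inF φ f⁻¹ := fun f => (map_inv _ _).symm
  obtain ⟨R, hRd⟩ : ∃ R : WeilGroup φ → Matrix (Fin n ⊕ Fin m) (Fin n ⊕ Fin m) L,
    ∀ w, R w = Matrix.fromBlocks (R₁ w) 0 0 (R₂ w) := ⟨_, fun _ => rfl⟩
  have hR1 : R 1 = 1 := by rw [hRd, hR₁1, hR₂1, Matrix.fromBlocks_one]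
  have hRmul : ∀ w w', R (w * w') = R w * R w' := by
    intro w w'
    rw [hRd, hRd, hRd, hR₁mul, hR₂mul, Matrix.fromBlocks_multiply]
    simp
  have hRc : Continuous (fun f : F => R (inF φ f)) := by
    have : (fun f : F => R (inF φ f)) = fun f => Matrix.fromBlocks (R₁ (inF φ f)) 0 0
        (R₂ (inF φ f)) := funext fun f => hRd _
    rw [this]
    exact Continuous.matrix_fromBlocks hR₁c continuous_const continuous_const hR₂c
  obtain ⟨N, hN, T, Ψ, ρ', hΨ, hρ', hρ'c, hρ'n, hφa⟩ := transport (p := p) R hR1 hRmul hRc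
  have hΨinj := Psi_inj T Ψ hΨ
  have hΨc := Psi_cont T Ψ hΨ
  have hfrob1 : R (frob φ) * R (frob φ)⁻¹ = 1 := by rw [← hRmul, mul_inv_cancel, hR1]
  have hfrob2 : R (frob φ)⁻¹ * R (frob φ) = 1 := by rw [← hRmul, inv_mul_cancel, hR1]
  have hab : Ψ (R (frob φ)) * Ψ (R (frob φ)⁻¹) = 1 := by rw [← map_mul, hfrob1, map_one]
  have hba : Ψ (R (frob φ)⁻¹) * Ψ (R (frob φ)) = 1 := by rw [← map_mul, hfrob2, map_one]
  have hcomm : ∀ (l : L) (M : Matrix (Fin n ⊕ Fin m) (Fin n ⊕ Fin m) L),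
      Ψ (l • (1 : Matrix (Fin n ⊕ Fin m) (Fin n ⊕ Fin m) L)) * Ψ M =
        Ψ M * Ψ (l • (1 : Matrix (Fin n ⊕ Fin m) (Fin n ⊕ Fin m) L)) := by
    intro l M
    rw [← map_mul, ← map_mul, Matrix.smul_mul, Matrix.mul_smul, Matrix.one_mul, Matrix.mul_one]
  obtain ⟨ℒ, hℒ⟩ : ∃ ℒ : Set (EN p N), ℒ =
    Set.range (fun l : L => Ψ (l • (1 : Matrix (Fin n ⊕ Fin m) (Fin n ⊕ Fin m) L))) := ⟨_, rfl⟩
  have hℒM : ∀ l ∈ ℒ, ∀ M, l * Ψ M = Ψ M * l := by
    intro l hl M
    rw [hℒ] at hl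
    obtain ⟨l, rfl⟩ := hl
    exact hcomm l M
  obtain ⟨E₁, hE₁⟩ : ∃ E₁ : EN p N, E₁ = Ψ (Matrix.fromBlocks 1 0 0 0) := ⟨_, rfl⟩
  obtain ⟨E₂, hE₂⟩ : ∃ E₂ : EN p N, E₂ = Ψ (Matrix.fromBlocks 0 0 0 1) := ⟨_, rfl⟩
  have hEE : E₁ + E₂ = 1 := by
    rw [hE₁, hE₂, ← map_add, Matrix.fromBlocks_add, ← map_one Ψ]
    congr 1
    rw [← Matrix.fromBlocks_one]
    simp
  have hE₁R : ∀ w, E₁ * Ψ (R w) = Ψ (R w) * E₁ := by
    intro w
    rw [hE₁, ← map_mul, ← map_mul, hRd]
    congr 1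
    simp [Matrix.fromBlocks_multiply]
  have hE₂R : ∀ w, E₂ * Ψ (R w) = Ψ (R w) * E₂ := by
    intro w
    rw [hE₂, ← map_mul, ← map_mul, hRd]
    congr 1
    simp [Matrix.fromBlocks_multiply]
  have hstab : ∀ (W : Submodule ℚ_[p] (Fin N → ℚ_[p])) (U : Submodule L (Fin n ⊕ Fin m → L)),
      (∀ u, u ∈ U ↔ T.symm u ∈ W) → (∀ f, ∀ w ∈ W, ρ' f w ∈ W) →
      (∀ w ∈ W, Ψ (R (frob φ)) w ∈ W) →
      (∀ f : F, ∀ v ∈ U, (R (inF φ f)).mulVec v ∈ U) ∧ (∀ v ∈ U, (R (frob φ)).mulVec v ∈ U) := by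
    intro W U hU h1 h2
    constructor
    · intro f v hv
      rw [hU] at hv ⊢
      have h3 := h1 f _ hv
      rwa [hρ', hΨ, ContinuousLinearEquiv.apply_symm_apply] at h3
    · intro v hv
      rw [hU] at hv ⊢
      have h3 := h2 _ hv
      rwa [hΨ, ContinuousLinearEquiv.apply_symm_apply] at h3
  have hirrE₁ : ∀ W : Submodule ℚ_[p] (Fin N → ℚ_[p]), W ≤ rg E₁ →
      (∀ l ∈ ℒ, ∀ w ∈ W, l w ∈ W) →
      (∀ f, ∀ w ∈ W, ρ' f w ∈ W) → (∀ w ∈ W, Ψ (R (frob φ)) w ∈ W) → W = ⊥ ∨ W = rg E₁ := by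
    intro W hWE hW1 hW2 hW3
    obtain ⟨U, hU⟩ := exists_sub T Ψ hΨ W (fun l w hw => hW1 _ (by rw [hℒ]; exact ⟨l, rfl⟩) w hw)
    obtain ⟨hU1, hU2⟩ := hstab W U hU hW2 hW3
    let jl : (Fin n → L) →ₗ[L] (Fin n ⊕ Fin m → L) :=
      { toFun := fun v => Sum.elim v 0
        map_add' := fun v w => by
          funext i
          rcases i with i | i <;> simp
        map_smul' := fun l v => by
          funext i
          rcases i with i | i <;> simp }
    have hjl : ∀ v, jl v = Sum.elim v 0 := fun _ => rfl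
    have hRj : ∀ w v, (R w).mulVec (jl v) = jl ((R₁ w).mulVec v) := by
      intro w v
      rw [hjl, hjl, hRd, Matrix.fromBlocks_mulVec]
      funext i
      rcases i with i | i <;> simp
    have hE₁v : ∀ y, E₁ y = T.symm (jl (T y ∘ Sum.inl)) := by
      intro y
      rw [hE₁, hΨ, Matrix.fromBlocks_mulVec, hjl]
      congr 1
      funext i
      rcases i with i | i <;> simp
    rcases hirr₁ (U.comap jl) (fun w v hv => by
        rw [Submodule.mem_comap] at hv ⊢
        rw [hR₁, ← hRj]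
        exact stable_all R hR1 hRmul U hU1 hU2 w _ hv) with h | h
    · left
      rw [eq_bot_iff]
      intro w hw
      obtain ⟨y, hy⟩ := hWE hw
      have hy' : E₁ y = w := hy
      rw [hE₁v] at hy'
      have h1 : T y ∘ Sum.inl ∈ U.comap jl := by
        rw [Submodule.mem_comap, hU, hy']
        exact hw
      rw [h, Submodule.mem_bot] at h1
      rw [Submodule.mem_bot, ← hy', h1, map_zero, map_zero]
    · right
      apply le_antisymm hWE
      rintro w ⟨y, hy⟩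
      have hy' : E₁ y = w := hy
      rw [hE₁v] at hy'
      have h1 : T y ∘ Sum.inl ∈ U.comap jl := by rw [h]; exact Submodule.mem_top
      rw [Submodule.mem_comap, hU, hy'] at h1
      exact h1
  have hirrE₂ : ∀ W : Submodule ℚ_[p] (Fin N → ℚ_[p]), W ≤ rg E₂ →
      (∀ l ∈ ℒ, ∀ w ∈ W, l w ∈ W) →
      (∀ f, ∀ w ∈ W, ρ' f w ∈ W) → (∀ w ∈ W, Ψ (R (frob φ)) w ∈ W) → W = ⊥ ∨ W = rg E₂ := by
    intro W hWE hW1 hW2 hW3
    obtain ⟨U, hU⟩ := exists_sub T Ψ hΨ W (fun l w hw => hW1 _ (by rw [hℒ]; exact ⟨l, rfl⟩) w hw)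
    obtain ⟨hU1, hU2⟩ := hstab W U hU hW2 hW3
    let jr : (Fin m → L) →ₗ[L] (Fin n ⊕ Fin m → L) :=
      { toFun := fun v => Sum.elim (0 : Fin n → L) v
        map_add' := fun v w => by
          funext i
          rcases i with i | i <;> simp
        map_smul' := fun l v => by
          funext i
          rcases i with i | i <;> simp }
    have hjr : ∀ v, jr v = Sum.elim (0 : Fin n → L) v := fun _ => rfl
    have hRj : ∀ w v, (R w).mulVec (jr v) = jr ((R₂ w).mulVec v) := by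
      intro w v
      rw [hjr, hjr, hRd, Matrix.fromBlocks_mulVec]
      funext i
      rcases i with i | i <;> simp
    have hE₂v : ∀ y, E₂ y = T.symm (jr (T y ∘ Sum.inr)) := by
      intro y
      rw [hE₂, hΨ, Matrix.fromBlocks_mulVec, hjr]
      congr 1
      funext i
      rcases i with i | i <;> simp
    rcases hirr₂ (U.comap jr) (fun w v hv => by
        rw [Submodule.mem_comap] at hv ⊢
        rw [hR₂, ← hRj]
        exact stable_all R hR1 hRmul U hU1 hU2 w _ hv) with h | h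
    · left
      rw [eq_bot_iff]
      intro w hw
      obtain ⟨y, hy⟩ := hWE hw
      have hy' : E₂ y = w := hy
      rw [hE₂v] at hy'
      have h1 : T y ∘ Sum.inr ∈ U.comap jr := by
        rw [Submodule.mem_comap, hU, hy']
        exact hw
      rw [h, Submodule.mem_bot] at h1
      rw [Submodule.mem_bot, ← hy', h1, map_zero, map_zero]
    · right
      apply le_antisymm hWE
      rintro w ⟨y, hy⟩
      have hy' : E₂ y = w := hy
      rw [hE₂v] at hy'
      have h1 : T y ∘ Sum.inr ∈ U.comap jr := by rw [h]; exact Submodule.mem_top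
      rw [Submodule.mem_comap, hU, hy'] at h1
      exact h1
  -- the upper right blocks
  let Λ : Matrix (Fin n) (Fin m) L →ₗ[ℚ_[p]] EN p N :=
    { toFun := fun u => Ψ (Matrix.fromBlocks 0 u 0 0)
      map_add' := fun u v => by
        rw [← map_add, Matrix.fromBlocks_add]
        simp
      map_smul' := fun q u => by
        rw [RingHom.id_apply, ← map_smul, Matrix.fromBlocks_smul]
        simp }
  have hΛ : ∀ u, Λ u = Ψ (Matrix.fromBlocks 0 u 0 0) := fun _ => rfl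
  have hΛinj : ∀ u v, Λ u = Λ v → u = v := by
    intro u v h
    have h1 := hΨinj h
    have h2 := (Matrix.fromBlocks_inj.1 h1).2.1
    exact h2
  have hΛc : Continuous Λ := by
    have h1 : (Λ : Matrix (Fin n) (Fin m) L → EN p N) =
      fun u => Ψ (Matrix.fromBlocks 0 u 0 0) := funext hΛ
    rw [h1]
    exact hΨc.comp (Continuous.matrix_fromBlocks continuous_const continuous_id continuous_const
      continuous_const)
  have hΛconj : ∀ w w' u, Ψ (R w) * Λ u * Ψ (R w') = Λ (R₁ w * u * R₂ w') := by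
    intro w w' u
    rw [hΛ, hΛ, ← map_mul, ← map_mul, hRd, hRd, blocks_conj]
  have hρ'inv : ∀ f u, ρ' f * Λ u * ρ' f⁻¹ = Λ (R₁ (inF φ f) * u * R₂ (inF φ f)⁻¹) := by
    intro f u
    rw [hρ', hρ', ← hinFinv, hΛconj]
  obtain ⟨e₀, he₀⟩ := hinv
  obtain ⟨q₁, hq₁, hχ₁⟩ := det_root hx φ hφ ρ hρ
  obtain ⟨q₂, hq₂, hχ₂⟩ := det_root hx φ hφ σ hσ
  obtain ⟨t, ht, hdd⟩ := hw
  obtain ⟨e, ⟨u, hu⟩, hce⟩ := core2 hx φ hφ N hN ρ' hρ'c hρ'n (Ψ (R (frob φ)))
    (Ψ (R (frob φ)⁻¹)) hab hba hφa ℒ (fun l hl f => by rw [hρ']; exact hℒM l hl _)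
    {E₁, E₂}
    (by
      rintro e (rfl | rfl) l hl
      · rw [hE₁]; exact (hℒM l hl _).symm
      · rw [hE₂]; exact (hℒM l hl _).symm)
    (by
      rintro e (rfl | rfl) f
      · rw [hρ']; exact hE₁R _
      · rw [hρ']; exact hE₂R _)
    (by
      rintro e (rfl | rfl)
      · exact hE₁R _
      · exact hE₂R _)
    (by
      rintro e (rfl | rfl)
      · exact hirrE₁
      · exact hirrE₂)
    (by
      intro W hW
      rw [eq_top_iff]
      intro v _
      have h1 : v = E₁ v + E₂ v := by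
        have h2 := congrArg (fun A : EN p N => A v) hEE
        exact h2.symm
      rw [h1]
      exact W.add_mem (hW E₁ (Or.inl rfl) ⟨v, rfl⟩) (hW E₂ (Or.inr rfl) ⟨v, rfl⟩))
    (LinearMap.range Λ)
    (by
      rintro f _ ⟨u, rfl⟩
      rw [hρ'inv]
      exact ⟨_, rfl⟩)
    (by
      intro M₁ hM₁ k f₀ hz1 hz2 B hB
      obtain ⟨w₀, hw₀⟩ : ∃ w₀ : WeilGroup φ, w₀ = inF φ f₀⁻¹ * frob φ ^ k := ⟨_, rfl⟩
      have hRpow : ∀ (w : WeilGroup φ) (k : ℕ), R (w ^ k) = R w ^ k := by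
        intro w k
        induction k with
        | zero => rw [pow_zero, pow_zero, hR1]
        | succ k ih => rw [pow_succ, pow_succ, hRmul, ih]
      have hR₁pow : ∀ (w : WeilGroup φ) (k : ℕ), R₁ (w ^ k) = R₁ w ^ k := by
        intro w k
        induction k with
        | zero => rw [pow_zero, pow_zero, hR₁1]
        | succ k ih => rw [pow_succ, pow_succ, hR₁mul, ih]
      have hR₂pow : ∀ (w : WeilGroup φ) (k : ℕ), R₂ (w ^ k) = R₂ w ^ k := by
        intro w k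
        induction k with
        | zero => rw [pow_zero, pow_zero, hR₂1]
        | succ k ih => rw [pow_succ, pow_succ, hR₂mul, ih]
      have hz : ρ' f₀⁻¹ * Ψ (R (frob φ)) ^ k = Ψ (R w₀) := by
        rw [hρ', ← map_pow, ← map_mul, ← hRpow, ← hRmul, hw₀]
      have hz' : Ψ (R (frob φ)⁻¹) ^ k * ρ' f₀ = Ψ (R w₀⁻¹) := by
        rw [hρ', ← map_pow, ← map_mul, ← hRpow, ← hRmul, hw₀, mul_inv_rev, hinFinv, inv_inv,
          inv_pow]
      rw [hz] at hz1 hz2
      have hcomm₁ : ∀ w, R w₀ * R w = R w * R w₀ →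
          R₁ w₀ * R₁ w = R₁ w * R₁ w₀ ∧ R₂ w₀ * R₂ w = R₂ w * R₂ w₀ := by
        intro w h
        rw [hRd, hRd, Matrix.fromBlocks_multiply, Matrix.fromBlocks_multiply] at h
        have h1 := Matrix.fromBlocks_inj.1 h
        refine ⟨?_, ?_⟩
        · simpa using h1.1
        · simpa using h1.2.2.2
      have hzF : ∀ f : F, R w₀ * R (inF φ f) = R (inF φ f) * R w₀ := by
        intro f
        apply hΨinj
        rw [map_mul, map_mul, ← hρ']
        exact hz1 f
      have hzfr : R w₀ * R (frob φ) = R (frob φ) * R w₀ := by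
        apply hΨinj
        rw [map_mul, map_mul]
        exact hz2
      have hmp₁ : Irreducible (minpoly ℚ_[p] (R₁ w₀)) := by
        refine schur_minpoly hn (R₁ w₀) (Set.range (fun f : F => R₁ (inF φ f)) ∪ {R₁ (frob φ)})
          ?_ ?_
        · rintro s (⟨f, rfl⟩ | rfl)
          · exact (hcomm₁ _ (hzF f)).1
          · exact (hcomm₁ _ hzfr).1
        · intro U hU
          apply hirr₁ U
          intro w v hv
          rw [hR₁]
          exact stable_all R₁ hR₁1 hR₁mul U (fun f v hv => hU _ (Or.inl ⟨f, rfl⟩) v hv)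
            (fun v hv => hU _ (Or.inr rfl) v hv) w v hv
      have hmp₂ : Irreducible (minpoly ℚ_[p] (R₂ w₀)) := by
        refine schur_minpoly hm (R₂ w₀) (Set.range (fun f : F => R₂ (inF φ f)) ∪ {R₂ (frob φ)})
          ?_ ?_
        · rintro s (⟨f, rfl⟩ | rfl)
          · exact (hcomm₁ _ (hzF f)).2
          · exact (hcomm₁ _ hzfr).2
        · intro U hU
          apply hirr₂ U
          intro w v hv
          rw [hR₂]
          exact stable_all R₂ hR₂1 hR₂mul U (fun f v hv => hU _ (Or.inl ⟨f, rfl⟩) v hv)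
            (fun v hv => hU _ (Or.inr rfl) v hv) w v hv
      have hmon₁ : (minpoly ℚ_[p] (R₁ w₀)).Monic :=
        minpoly.monic (Algebra.IsIntegral.isIntegral _)
      have hmon₂ : (minpoly ℚ_[p] (R₂ w₀)).Monic :=
        minpoly.monic (Algebra.IsIntegral.isIntegral _)
      have hrank : ∀ j : ℕ, Module.finrank ℚ_[p] (Fin j → L) = j * Module.finrank ℚ_[p] L := by
        intro j
        rw [Module.finrank_pi_fintype]
        simp
      have hs : 0 < Module.finrank ℚ_[p] L := Module.finrank_pos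
      have hdet₁ : (R₁ w₀).det = (R₁ (inF φ f₀⁻¹)).det * (R₁ (frob φ)).det ^ k := by
        rw [hw₀, hR₁mul, hR₁pow, Matrix.det_mul, Matrix.det_pow]
      have hdet₂ : (R₂ w₀).det = (R₂ (inF φ f₀⁻¹)).det * (R₂ (frob φ)).det ^ k := by
        rw [hw₀, hR₂mul, hR₂pow, Matrix.det_mul, Matrix.det_pow]
      refine det_pair (K := ℚ_[p]) (R := EN p N) (V₁ := Fin n → L) (V₂ := Fin m → L)
        (minpoly ℚ_[p] (R₁ w₀)) (minpoly ℚ_[p] (R₂ w₀)) hmon₁ hmon₂ hmp₁ hmp₂
        (lin p (R₁ w₀)) ?_ (lin p (R₂ w₀)) ?_ ?_ ?_ (t * q₁ * q₂) ?_ ?_ ?_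
        (Ψ (R w₀)) (Ψ (R w₀⁻¹)) ?_ ?_ M₁ ?_ ?_ B ?_
      · rw [lin_aeval, minpoly.aeval]
        refine LinearMap.ext fun v => ?_
        show Matrix.toLin' (0 : Matrix (Fin n) (Fin n) L) v = 0
        rw [map_zero, LinearMap.zero_apply]
      · rw [lin_aeval, minpoly.aeval]
        refine LinearMap.ext fun v => ?_
        show Matrix.toLin' (0 : Matrix (Fin m) (Fin m) L) v = 0
        rw [map_zero, LinearMap.zero_apply]
      · rw [hrank]; exact Nat.mul_pos hn hs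
      · rw [hrank]; exact Nat.mul_pos hm hs
      · exact Nat.mul_pos (Nat.mul_pos ht hq₁) hq₂
      · rw [hrank, hrank, lin_det, lin_det, hdet₁, hdet₂]
        refine weight_aux _ _ _ _ q₁ q₂ k m n _ t ?_ ?_ ?_
        · rw [← hR₁]; exact hχ₁ _
        · rw [← hR₂]; exact hχ₂ _
        · rw [← hR₁, ← hR₂]; exact hdd
      · rw [lin_det, Algebra.norm_ne_zero_iff]
        intro h0
        have h1 : (R₂ w₀).det * (R₂ w₀⁻¹).det = 1 := by
          rw [← Matrix.det_mul, ← hR₂mul, mul_inv_cancel, hR₂1, Matrix.det_one]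
        rw [h0, zero_mul] at h1
        exact zero_ne_one h1
      · rw [← map_mul, ← hRmul, mul_inv_cancel, hR1, map_one]
      · rw [← map_mul, ← hRmul, inv_mul_cancel, hR1, map_one]
      · intro y hy
        obtain ⟨v, rfl⟩ := hM₁ hy
        rw [Polynomial.aeval_algHom_apply, hΛ, ← map_mul, hRd, aeval_blocks, minpoly.aeval,
          Matrix.fromBlocks_multiply]
        simp
      · intro y hy
        obtain ⟨v, rfl⟩ := hM₁ hy
        rw [Polynomial.aeval_algHom_apply, hΛ, ← map_mul, hRd, aeval_blocks, minpoly.aeval,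
          Matrix.fromBlocks_multiply]
        simp
      · intro y
        rw [hB, hz, hz'])
    (fun f => Λ (c f)) (hΛc.comp hc) (fun f => ⟨_, rfl⟩)
    (fun f h => by
      show Λ (c (f * h)) = Λ (c f) + ρ' f * Λ (c h) * ρ' f⁻¹
      rw [hcoc, map_add, hρ'inv, hR₂inv, hR₁])
    (Λ e₀)
    (fun f => by
      show Ψ (R (frob φ)) * Λ (c (φ.symm f)) * Ψ (R (frob φ)⁻¹) - Λ (c f) =
        ρ' f * Λ e₀ * ρ' f⁻¹ - Λ e₀
      have h1 := congrArg Λ (he₀ f)
      simp only [frobActHom] at h1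
      rw [map_sub, map_sub, hR₂inv, hR₂inv, hR₁, hR₁] at h1
      rw [hρ'inv, hΛconj]
      exact h1)
  refine ⟨u, fun f => ?_⟩
  apply hΛinj
  have h1 : Λ (c f) = ρ' f * e * ρ' f⁻¹ - e := hce f
  rw [h1, ← hu, hρ'inv, ← map_sub, hR₂inv, hR₁]

end Pool.Agent.KS6_3.RX
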